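import Mathlib

/-!
# Directed triangle decompositions: the inequality behind the coverage bound

For `s, t ≥ 0` there is `Y` in `[0, 2]` such that, with `T = s ^ 3 + t ^ 3`,
`s (s ^ 2 + a ^ 2) ≤ (2/3) Y (T + a ^ 3)` and `t (t ^ 2 + a ^ 2) ≤ (2/3) (2 - Y) (T + a ^ 3)` for all
`a ≥ 0`.
-/

set_option autoImplicit false

namespace DiTri

/-- one half of the inequality -/
theorem half_bound {s T Y a : ℝ} (hs : 0 ≤ s) (hY : 0 < Y) (ha : 0 ≤ a)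
    (h : s ^ 3 * (1 + 3 * Y ^ 2) ≤ 2 * Y ^ 3 * T) :
    s * (s ^ 2 + a ^ 2) ≤ 2 / 3 * Y * (T + a ^ 3) := by
  have h1 : 0 ≤ (s - Y * a) ^ 2 * (s + 2 * (Y * a)) := by positivity
  have h2 : 3 * Y ^ 2 * (s * (s ^ 2 + a ^ 2)) ≤ 3 * Y ^ 2 * (2 / 3 * Y * (T + a ^ 3)) := by
    nlinarith [h1, h]
  exact le_of_mul_le_mul_left h2 (by positivity)

/-- the polynomial inequality `3 e ^ 4 ≥ 0` -/
theorem poly_bound {Y : ℝ} :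
    (1 + 3 * Y ^ 2 - 2 * Y ^ 3) * (1 + 3 * (2 - Y) ^ 2) ≤ 2 * (2 - Y) ^ 3 * (1 + 3 * Y ^ 2) := by
  have h : 2 * (2 - Y) ^ 3 * (1 + 3 * Y ^ 2) -
      (1 + 3 * Y ^ 2 - 2 * Y ^ 3) * (1 + 3 * (2 - Y) ^ 2) = 3 * (Y - 1) ^ 4 := by ring
  have h1 : 0 ≤ 3 * (Y - 1) ^ 4 := by positivity
  linarith

/-- the split of the coverage of an arc between its two ends -/
theorem exists_split {s t : ℝ} (hs : 0 ≤ s) (ht : 0 ≤ t) :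
    ∃ Y : ℝ, 0 ≤ Y ∧ Y ≤ 2 ∧
      (∀ a, 0 ≤ a → s * (s ^ 2 + a ^ 2) ≤ 2 / 3 * Y * (s ^ 3 + t ^ 3 + a ^ 3)) ∧
      (∀ a, 0 ≤ a → t * (t ^ 2 + a ^ 2) ≤ 2 / 3 * (2 - Y) * (s ^ 3 + t ^ 3 + a ^ 3)) := by
  rcases hs.eq_or_lt with hs0 | hs0
  · refine ⟨0, le_rfl, by norm_num, fun a _ => by rw [← hs0]; simp, fun a ha => ?_⟩
    refine half_bound ht (by norm_num) ha ?_
    rw [← hs0]
    have : 0 ≤ t ^ 3 := by positivity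
    nlinarith
  rcases ht.eq_or_lt with ht0 | ht0
  · refine ⟨2, by norm_num, le_rfl, fun a ha => ?_, fun a _ => by rw [← ht0]; simp⟩
    refine half_bound hs (by norm_num) ha ?_
    rw [← ht0]
    have : 0 ≤ s ^ 3 := by positivity
    nlinarith
  have hs3 : 0 < s ^ 3 := by positivity
  have ht3 : 0 < t ^ 3 := by positivity
  -- a root of `s ^ 3 (1 + 3 Y ^ 2) = 2 Y ^ 3 (s ^ 3 + t ^ 3)`
  obtain ⟨Y, ⟨hY0, hY2⟩, hY⟩ : ∃ Y ∈ Set.Icc (0 : ℝ) 2,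
      2 * Y ^ 3 * (s ^ 3 + t ^ 3) - s ^ 3 * (1 + 3 * Y ^ 2) = 0 := by
    have hc : ContinuousOn (fun Y : ℝ => 2 * Y ^ 3 * (s ^ 3 + t ^ 3) - s ^ 3 * (1 + 3 * Y ^ 2))
        (Set.Icc 0 2) := by fun_prop
    have h0 : (0 : ℝ) ∈ Set.Icc
        ((fun Y : ℝ => 2 * Y ^ 3 * (s ^ 3 + t ^ 3) - s ^ 3 * (1 + 3 * Y ^ 2)) 0)
        ((fun Y : ℝ => 2 * Y ^ 3 * (s ^ 3 + t ^ 3) - s ^ 3 * (1 + 3 * Y ^ 2)) 2) := by
      constructor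
      · simp only
        nlinarith
      · simp only
        nlinarith
    obtain ⟨Y, hY, hY'⟩ := intermediate_value_Icc (by norm_num : (0 : ℝ) ≤ 2) hc h0
    exact ⟨Y, hY, hY'⟩
  have hYp : 0 < Y := by
    rcases hY0.eq_or_lt with h | h
    · rw [← h] at hY
      nlinarith
    · exact h
  have hYp2 : Y < 2 := by
    rcases hY2.eq_or_lt with h | h
    · rw [h] at hY
      nlinarith
    · exact h
  refine ⟨Y, hY0, hY2, fun a ha => half_bound hs hYp ha (by linarith), fun a ha =>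
    half_bound ht (by linarith) ha ?_⟩
  -- the other end
  have h1 : 0 < 1 + 3 * Y ^ 2 := by positivity
  have h2 : t ^ 3 * (1 + 3 * Y ^ 2) = (s ^ 3 + t ^ 3) * (1 + 3 * Y ^ 2 - 2 * Y ^ 3) := by
    linarith
  have h3 : (1 + 3 * Y ^ 2) * (t ^ 3 * (1 + 3 * (2 - Y) ^ 2)) ≤
      (1 + 3 * Y ^ 2) * (2 * (2 - Y) ^ 3 * (s ^ 3 + t ^ 3)) := by
    calc (1 + 3 * Y ^ 2) * (t ^ 3 * (1 + 3 * (2 - Y) ^ 2)) =
          (s ^ 3 + t ^ 3) * ((1 + 3 * Y ^ 2 - 2 * Y ^ 3) * (1 + 3 * (2 - Y) ^ 2)) := by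
            rw [← mul_assoc, mul_comm (1 + 3 * Y ^ 2) (t ^ 3), h2]; ring
      _ ≤ (s ^ 3 + t ^ 3) * (2 * (2 - Y) ^ 3 * (1 + 3 * Y ^ 2)) :=
            mul_le_mul_of_nonneg_left poly_bound (by positivity)
      _ = (1 + 3 * Y ^ 2) * (2 * (2 - Y) ^ 3 * (s ^ 3 + t ^ 3)) := by ring
  exact le_of_mul_le_mul_left h3 h1

end DiTri
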