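import Pool.Agent.Lib.MP_cb9986_co.FNW.DiMain

/-!
# Directed triangle decompositions: duality

`exists_spread` : the fractional decomposition with bounded weights; `exists_decomp` : without the bound.
-/

set_option autoImplicit false

namespace DiTri

open Finset

variable {V : Type*} [Fintype V]

/-- the dual inequality with capacities -/
theorem dual_spread (A : V → V → Prop) [DecidableRel A]
    (good : V → V → V → Prop) [∀ a b c, Decidable (good a b c)]
    (hcyc : ∀ a b c, good a b c → good b c a) (hgood : ∀ a b c, good a b c → A a b)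
    (hbal : ∀ v, (∑ b, if A b v then (1 : ℝ) else 0) = deg A v)
    (hconn : ∀ u v, ∃ w, (A u w ∨ A w u) ∧ (A v w ∨ A w v)) (β : ℝ) (hβ : 0 < β)
    (hcnt : ∀ a b, A a b → 2 * deg A a + 3 * β ≤ 3 * cnt good a b ∧
      2 * deg A b + 3 * β ≤ 3 * cnt good a b)
    (y : V → V → ℝ) (c : V → V → V → ℝ) (hc : ∀ a b d, 0 ≤ c a b d)
    (hy : ∀ a b d, good a b d → 0 ≤ y a b + y b d + y d a + c a b d) :
    0 ≤ (∑ a, ∑ b, if A a b then y a b else 0) + 1 / β * ∑ a, ∑ b, ∑ d, c a b d := by
  classical
  set e : V → V → ℝ := fun a b => (∑ d, c a b d) / β with he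
  have he0 : ∀ a b, 0 ≤ e a b := fun a b =>
    div_nonneg (sum_nonneg fun d _ => hc a b d) hβ.le
  set bad : V → V → V → Prop := fun a b d => e a b < c a b d ∧ e b d < c b d a ∧ e d a < c d a b
    with hbad
  set g' : V → V → V → Prop := fun a b d => good a b d ∧ ¬ bad a b d with hg'
  have hdec : ∀ a b d, Decidable (g' a b d) := fun a b d => Classical.dec _
  -- few bad triangles on an arc
  have hfew : ∀ a b, ∑ d, (if bad a b d then (1 : ℝ) else 0) ≤ β := by
    intro a b
    rcases (he0 a b).eq_or_lt with h0 | h0
    · have h1 : ∀ d, c a b d = 0 := by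
        intro d
        have h2 : ∑ d, c a b d = 0 := by
          have h3 : (∑ d, c a b d) / β = 0 := h0.symm
          rcases div_eq_zero_iff.1 h3 with h4 | h4
          · exact h4
          · exact absurd h4 hβ.ne'
        exact (sum_eq_zero_iff_of_nonneg fun d _ => hc a b d).1 h2 d (mem_univ d)
      have h2 : ∑ d, (if bad a b d then (1 : ℝ) else 0) = 0 := by
        refine sum_eq_zero fun d _ => if_neg fun h => ?_
        have h3 := h.1
        rw [h1 d, ← h0] at h3
        exact lt_irrefl _ h3
      rw [h2]
      exact hβ.le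
    · have h1 : (∑ d, (if bad a b d then (1 : ℝ) else 0)) * e a b ≤ β * e a b := by
        rw [sum_mul]
        have h2 : β * e a b = ∑ d, c a b d := by
          simp only [he]
          field_simp
        rw [h2]
        refine sum_le_sum fun d _ => ?_
        split_ifs with h
        · rw [one_mul]; exact h.1.le
        · rw [zero_mul]; exact hc a b d
      exact le_of_mul_le_mul_right h1 h0
  have hcnt' : ∀ a b, cnt good a b - β ≤ cnt g' a b := by
    intro a b
    have h1 : cnt good a b ≤ cnt g' a b + ∑ d, (if bad a b d then (1 : ℝ) else 0) := by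
      unfold cnt
      rw [← sum_add_distrib]
      refine sum_le_sum fun d _ => ?_
      by_cases h2 : good a b d
      · by_cases h3 : bad a b d
        · rw [if_pos h2, if_pos h3]
          have : (0 : ℝ) ≤ if g' a b d then (1 : ℝ) else 0 := by split_ifs <;> norm_num
          linarith
        · have h4 : g' a b d := ⟨h2, h3⟩
          rw [if_pos h2, if_neg h3, if_pos h4]
          norm_num
      · rw [if_neg h2]
        have h5 : (0 : ℝ) ≤ if g' a b d then (1 : ℝ) else 0 := by split_ifs <;> norm_num
        have h6 : (0 : ℝ) ≤ if bad a b d then (1 : ℝ) else 0 := by split_ifs <;> norm_num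
        linarith
    have := hfew a b
    linarith
  have hbc : ∀ a b d, bad a b d → bad b d a := fun a b d h => ⟨h.2.1, h.2.2, h.1⟩
  have hkey := dual_nonneg A g'
    (fun a b d h => ⟨hcyc _ _ _ h.1, fun h2 => h.2 (hbc _ _ _ (hbc _ _ _ h2))⟩)
    (fun a b d h => hgood _ _ _ h.1) hbal hconn
    (fun a b hab => by
      have h1 := hcnt a b hab
      have h2 := hcnt' a b
      constructor
      · linarith [h1.1]
      · linarith [h1.2])
    (fun a b => y a b + e a b)
    (fun a b d h => by
      have h1 := hy a b d h.1
      have h2 := hy b d a (hcyc _ _ _ h.1)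
      have h3 := hy d a b (hcyc _ _ _ (hcyc _ _ _ h.1))
      have e1 := he0 a b
      have e2 := he0 b d
      have e3 := he0 d a
      by_contra hneg
      push Not at hneg
      refine h.2 ⟨?_, ?_, ?_⟩ <;> linarith)
  have hfin : (∑ a, ∑ b, if A a b then y a b + e a b else 0) ≤
      (∑ a, ∑ b, if A a b then y a b else 0) + 1 / β * ∑ a, ∑ b, ∑ d, c a b d := by
    rw [mul_sum, ← sum_add_distrib]
    refine sum_le_sum fun a _ => ?_
    rw [mul_sum, ← sum_add_distrib]
    refine sum_le_sum fun b _ => ?_
    have h1 : e a b = 1 / β * ∑ d, c a b d := by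
      simp only [he]
      ring
    rw [← h1]
    have := he0 a b
    split_ifs
    · exact le_rfl
    · linarith
  exact hkey.trans hfin

/-- **the spread decomposition** -/
theorem exists_spread [DecidableEq V] (A : V → V → Prop) [DecidableRel A]
    (good : V → V → V → Prop) [∀ a b c, Decidable (good a b c)]
    (hcyc : ∀ a b c, good a b c → good b c a) (hgood : ∀ a b c, good a b c → A a b)
    (hbal : ∀ v, (∑ b, if A b v then (1 : ℝ) else 0) = deg A v)
    (hconn : ∀ u v, ∃ w, (A u w ∨ A w u) ∧ (A v w ∨ A w v)) (β : ℝ) (hβ : 0 < β)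
    (hcnt : ∀ a b, A a b → 2 * deg A a + 3 * β ≤ 3 * cnt good a b ∧
      2 * deg A b + 3 * β ≤ 3 * cnt good a b) :
    ∃ w : V → V → V → ℝ, (∀ a b c, 0 ≤ w a b c) ∧ (∀ a b c, w a b c ≤ 3 / β) ∧
      (∀ a b c, w a b c ≠ 0 → good a b c) ∧ (∀ a b c, w a b c = w b c a) ∧
      ∀ a b, A a b → ∑ c, w a b c = 1 := by
  classical
  let B : (V × V × V) ⊕ (V × V × V) → ((V → V → ℝ) × (V → V → V → ℝ)) →ₗ[ℝ] ℝ := fun i =>
    match i with
    | Sum.inl t =>
      { toFun := fun d => if good t.1 t.2.1 t.2.2 then
          d.1 t.1 t.2.1 + d.1 t.2.1 t.2.2 + d.1 t.2.2 t.1 + d.2 t.1 t.2.1 t.2.2 else 0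
        map_add' := fun d d' => by
          simp only [Prod.fst_add, Prod.snd_add, Pi.add_apply]
          split_ifs <;> ring
        map_smul' := fun r d => by
          simp only [Prod.smul_fst, Prod.smul_snd, Pi.smul_apply, smul_eq_mul, RingHom.id_apply]
          split_ifs <;> ring }
    | Sum.inr t =>
      { toFun := fun d => d.2 t.1 t.2.1 t.2.2
        map_add' := fun d d' => by simp
        map_smul' := fun r d => by simp }
  let l : ((V → V → ℝ) × (V → V → V → ℝ)) →ₗ[ℝ] ℝ :=
    { toFun := fun d => (∑ a, ∑ b, if A a b then d.1 a b else 0) +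
        1 / β * ∑ a, ∑ b, ∑ e, d.2 a b e
      map_add' := fun d d' => by
        have h1 : ∀ a b, (if A a b then (d + d').1 a b else 0) =
            (if A a b then d.1 a b else 0) + (if A a b then d'.1 a b else 0) := by
          intro a b
          simp only [Prod.fst_add, Pi.add_apply]
          split_ifs <;> ring
        simp only [h1, Prod.snd_add, Pi.add_apply, sum_add_distrib]
        ring
      map_smul' := fun r d => by
        have h1 : ∀ a b, (if A a b then (r • d).1 a b else 0) =
            r * (if A a b then d.1 a b else 0) := by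
          intro a b
          simp only [Prod.smul_fst, Pi.smul_apply, smul_eq_mul]
          split_ifs <;> ring
        simp only [h1, Prod.smul_snd, Pi.smul_apply, smul_eq_mul, ← mul_sum, RingHom.id_apply]
        ring }
  obtain ⟨c, hc, hcl⟩ := farkas_fintype B l (by
    rintro ⟨y, d⟩ hd
    refine dual_spread A good hcyc hgood hbal hconn β hβ hcnt y d
      (fun a b e => hd (Sum.inr (a, b, e))) fun a b e hg => ?_
    have h1 := hd (Sum.inl (a, b, e))
    simp only [B, LinearMap.coe_mk, AddHom.coe_mk] at h1
    rw [if_pos hg] at h1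
    exact h1)
  set v : V → V → V → ℝ := fun a b e => if good a b e then c (Sum.inl (a, b, e)) else 0 with hv
  have hv0 : ∀ a b e, 0 ≤ v a b e := by
    intro a b e
    simp only [hv]
    split_ifs
    · exact hc _
    · exact le_rfl
  have hmain : ∀ (y : V → V → ℝ) (d : V → V → V → ℝ),
      (∑ a, ∑ b, if A a b then y a b else 0) + 1 / β * ∑ a, ∑ b, ∑ e, d a b e =
      ∑ a, ∑ b, ∑ e, v a b e * (y a b + y b e + y e a + d a b e) +
        ∑ a, ∑ b, ∑ e, c (Sum.inr (a, b, e)) * d a b e := by
    intro y d
    have h1 := hcl (y, d)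
    rw [Fintype.sum_sum_type, Fintype.sum_prod_type, Fintype.sum_prod_type] at h1
    simp only [Fintype.sum_prod_type] at h1
    have h2 : l (y, d) = (∑ a, ∑ b, if A a b then y a b else 0) +
        1 / β * ∑ a, ∑ b, ∑ e, d a b e := rfl
    rw [← h2, h1]
    congr 1
    refine sum_congr rfl fun a _ => sum_congr rfl fun b _ => sum_congr rfl fun e _ => ?_
    simp only [B, hv, LinearMap.coe_mk, AddHom.coe_mk]
    split_ifs <;> ring
  -- the bound
  have hvb : ∀ a b e, v a b e ≤ 1 / β := by
    intro a b e
    have h1 := hmain 0 (fun a' b' e' => if a' = a ∧ b' = b ∧ e' = e then 1 else 0)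
    have h2 : ∀ f : V → V → V → ℝ, ∑ a', ∑ b', ∑ e', f a' b' e' *
        (if a' = a ∧ b' = b ∧ e' = e then (1 : ℝ) else 0) = f a b e := by
      intro f
      rw [sum_eq_single a, sum_eq_single b, sum_eq_single e]
      · simp
      · intro e' _ he'; simp [he']
      · intro h; exact absurd (mem_univ e) h
      · intro b' _ hb'; simp [hb']
      · intro h; exact absurd (mem_univ b) h
      · intro a' _ ha'; simp [ha']
      · intro h; exact absurd (mem_univ a) h
    have h3 := h2 (fun _ _ _ => 1)
    simp only [one_mul] at h3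
    simp only [Pi.zero_apply, ite_self, sum_const_zero, zero_add, h3, mul_one] at h1
    rw [h2 v, h2 (fun a b e => c (Sum.inr (a, b, e)))] at h1
    have h4 := hc (Sum.inr (a, b, e))
    linarith
  -- the coverage
  have hcov : ∀ s t, A s t → ∑ e, (v s t e + v t e s + v e s t) = 1 := by
    intro s t hst
    have h1 := hmain (fun a b => if a = s ∧ b = t then 1 else 0) 0
    have h2 : (∑ a, ∑ b, if A a b then (if a = s ∧ b = t then (1 : ℝ) else 0) else 0) = 1 := by
      rw [sum_eq_single s, sum_eq_single t]
      · simp [hst]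
      · intro b _ hb; simp [hb]
      · intro h; exact absurd (mem_univ t) h
      · intro a _ ha; simp [ha]
      · intro h; exact absurd (mem_univ s) h
    have h3 : ∑ a, ∑ b, ∑ e, v a b e * ((if a = s ∧ b = t then (1 : ℝ) else 0) +
        (if b = s ∧ e = t then (1 : ℝ) else 0) + (if e = s ∧ a = t then (1 : ℝ) else 0) + 0) =
        ∑ e, (v s t e + v t e s + v e s t) := by
      simp only [add_zero, mul_add, sum_add_distrib]
      have e1 : ∑ a, ∑ b, ∑ e, v a b e * (if a = s ∧ b = t then (1 : ℝ) else 0) =
          ∑ e, v s t e := by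
        rw [sum_eq_single s, sum_eq_single t]
        · simp
        · intro b _ hb; simp [hb]
        · intro h; exact absurd (mem_univ t) h
        · intro a _ ha; simp [ha]
        · intro h; exact absurd (mem_univ s) h
      have e2 : ∑ a, ∑ b, ∑ e, v a b e * (if b = s ∧ e = t then (1 : ℝ) else 0) =
          ∑ e, v e s t := by
        refine sum_congr rfl fun a _ => ?_
        rw [sum_eq_single s, sum_eq_single t]
        · simp
        · intro b _ hb; simp [hb]
        · intro h; exact absurd (mem_univ t) h
        · intro a _ ha; simp [ha]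
        · intro h; exact absurd (mem_univ s) h
      have e3 : ∑ a, ∑ b, ∑ e, v a b e * (if e = s ∧ a = t then (1 : ℝ) else 0) =
          ∑ e, v t e s := by
        rw [sum_eq_single t]
        · refine sum_congr rfl fun b _ => ?_
          rw [sum_eq_single s]
          · simp
          · intro b _ hb; simp [hb]
          · intro h; exact absurd (mem_univ s) h
        · intro a _ ha; simp [ha]
        · intro h; exact absurd (mem_univ t) h
      rw [e1, e2, e3]
      ring
    simp only [Pi.zero_apply, sum_const_zero, mul_zero, add_zero] at h1 h3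
    rw [h2, h3] at h1
    exact h1.symm
  refine ⟨fun a b e => v a b e + v b e a + v e a b, fun a b e => ?_, fun a b e => ?_,
    fun a b e h => ?_, fun a b e => by ring, fun a b hab => hcov a b hab⟩
  · exact add_nonneg (add_nonneg (hv0 _ _ _) (hv0 _ _ _)) (hv0 _ _ _)
  · have h1 := hvb a b e
    have h2 := hvb b e a
    have h3 := hvb e a b
    have h4 : 3 / β = 1 / β + 1 / β + 1 / β := by ring
    simp only
    linarith
  · by_contra hng
    apply h
    have h1 : v a b e = 0 := if_neg hng
    have h2 : v b e a = 0 := if_neg fun h2 => hng (hcyc _ _ _ (hcyc _ _ _ h2))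
    have h3 : v e a b = 0 := if_neg fun h3 => hng (hcyc _ _ _ h3)
    simp only
    rw [h1, h2, h3]
    ring

/-- **the decomposition** -/
theorem exists_decomp [DecidableEq V] (A : V → V → Prop) [DecidableRel A]
    (good : V → V → V → Prop) [∀ a b c, Decidable (good a b c)]
    (hcyc : ∀ a b c, good a b c → good b c a) (hgood : ∀ a b c, good a b c → A a b)
    (hbal : ∀ v, (∑ b, if A b v then (1 : ℝ) else 0) = deg A v)
    (hconn : ∀ u v, ∃ w, (A u w ∨ A w u) ∧ (A v w ∨ A w v))
    (hcnt : ∀ a b, A a b → 2 * deg A a ≤ 3 * cnt good a b ∧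
      2 * deg A b ≤ 3 * cnt good a b) :
    ∃ w : V → V → V → ℝ, (∀ a b c, 0 ≤ w a b c) ∧
      (∀ a b c, w a b c ≠ 0 → good a b c) ∧ (∀ a b c, w a b c = w b c a) ∧
      ∀ a b, A a b → ∑ c, w a b c = 1 := by
  classical
  let B : V × V × V → (V → V → ℝ) →ₗ[ℝ] ℝ := fun t =>
    { toFun := fun d => if good t.1 t.2.1 t.2.2 then
        d t.1 t.2.1 + d t.2.1 t.2.2 + d t.2.2 t.1 else 0
      map_add' := fun d d' => by
        simp only [Pi.add_apply]
        split_ifs <;> ring
      map_smul' := fun r d => by
        simp only [Pi.smul_apply, smul_eq_mul, RingHom.id_apply]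
        split_ifs <;> ring }
  let l : (V → V → ℝ) →ₗ[ℝ] ℝ :=
    { toFun := fun d => ∑ a, ∑ b, if A a b then d a b else 0
      map_add' := fun d d' => by
        have h1 : ∀ a b, (if A a b then (d + d') a b else 0) =
            (if A a b then d a b else 0) + (if A a b then d' a b else 0) := by
          intro a b
          simp only [Pi.add_apply]
          split_ifs <;> ring
        simp only [h1, sum_add_distrib]
      map_smul' := fun r d => by
        have h1 : ∀ a b, (if A a b then (r • d) a b else 0) =
            r * (if A a b then d a b else 0) := by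
          intro a b
          simp only [Pi.smul_apply, smul_eq_mul]
          split_ifs <;> ring
        simp only [h1, smul_eq_mul, ← mul_sum, RingHom.id_apply] }
  obtain ⟨c, hc, hcl⟩ := farkas_fintype B l (by
    intro y hd
    refine dual_nonneg A good hcyc hgood hbal hconn hcnt y fun a b e hg => ?_
    have h1 := hd (a, b, e)
    simp only [B, LinearMap.coe_mk, AddHom.coe_mk] at h1
    rw [if_pos hg] at h1
    exact h1)
  set v : V → V → V → ℝ := fun a b e => if good a b e then c (a, b, e) else 0 with hv
  have hv0 : ∀ a b e, 0 ≤ v a b e := by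
    intro a b e
    simp only [hv]
    split_ifs
    · exact hc _
    · exact le_rfl
  have hmain : ∀ (y : V → V → ℝ), (∑ a, ∑ b, if A a b then y a b else 0) =
      ∑ a, ∑ b, ∑ e, v a b e * (y a b + y b e + y e a) := by
    intro y
    have h1 := hcl y
    simp only [Fintype.sum_prod_type] at h1
    have h2 : l y = ∑ a, ∑ b, if A a b then y a b else 0 := rfl
    rw [← h2, h1]
    refine sum_congr rfl fun a _ => sum_congr rfl fun b _ => sum_congr rfl fun e _ => ?_
    simp only [B, hv, LinearMap.coe_mk, AddHom.coe_mk]
    split_ifs <;> ring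
  -- the coverage
  have hcov : ∀ s t, A s t → ∑ e, (v s t e + v t e s + v e s t) = 1 := by
    intro s t hst
    have h1 := hmain (fun a b => if a = s ∧ b = t then 1 else 0)
    have h2 : (∑ a, ∑ b, if A a b then (if a = s ∧ b = t then (1 : ℝ) else 0) else 0) = 1 := by
      rw [sum_eq_single s, sum_eq_single t]
      · simp [hst]
      · intro b _ hb; simp [hb]
      · intro h; exact absurd (mem_univ t) h
      · intro a _ ha; simp [ha]
      · intro h; exact absurd (mem_univ s) h
    have h3 : ∑ a, ∑ b, ∑ e, v a b e * ((if a = s ∧ b = t then (1 : ℝ) else 0) +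
        (if b = s ∧ e = t then (1 : ℝ) else 0) + (if e = s ∧ a = t then (1 : ℝ) else 0)) =
        ∑ e, (v s t e + v t e s + v e s t) := by
      simp only [mul_add, sum_add_distrib]
      have e1 : ∑ a, ∑ b, ∑ e, v a b e * (if a = s ∧ b = t then (1 : ℝ) else 0) =
          ∑ e, v s t e := by
        rw [sum_eq_single s, sum_eq_single t]
        · simp
        · intro b _ hb; simp [hb]
        · intro h; exact absurd (mem_univ t) h
        · intro a _ ha; simp [ha]
        · intro h; exact absurd (mem_univ s) h
      have e2 : ∑ a, ∑ b, ∑ e, v a b e * (if b = s ∧ e = t then (1 : ℝ) else 0) =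
          ∑ e, v e s t := by
        refine sum_congr rfl fun a _ => ?_
        rw [sum_eq_single s, sum_eq_single t]
        · simp
        · intro b _ hb; simp [hb]
        · intro h; exact absurd (mem_univ t) h
        · intro a _ ha; simp [ha]
        · intro h; exact absurd (mem_univ s) h
      have e3 : ∑ a, ∑ b, ∑ e, v a b e * (if e = s ∧ a = t then (1 : ℝ) else 0) =
          ∑ e, v t e s := by
        rw [sum_eq_single t]
        · refine sum_congr rfl fun b _ => ?_
          rw [sum_eq_single s]
          · simp
          · intro b _ hb; simp [hb]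
          · intro h; exact absurd (mem_univ s) h
        · intro a _ ha; simp [ha]
        · intro h; exact absurd (mem_univ t) h
      rw [e1, e2, e3]
      ring
    rw [h2, h3] at h1
    exact h1.symm
  refine ⟨fun a b e => v a b e + v b e a + v e a b, fun a b e => ?_,
    fun a b e h => ?_, fun a b e => by ring, fun a b hab => hcov a b hab⟩
  · exact add_nonneg (add_nonneg (hv0 _ _ _) (hv0 _ _ _)) (hv0 _ _ _)
  · by_contra hng
    apply h
    have h1 : v a b e = 0 := if_neg hng
    have h2 : v b e a = 0 := if_neg fun h2 => hng (hcyc _ _ _ (hcyc _ _ _ h2))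
    have h3 : v e a b = 0 := if_neg fun h3 => hng (hcyc _ _ _ h3)
    simp only
    rw [h1, h2, h3]
    ring

end DiTri
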