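import Mathlib
import Pool.Agent.Lib.MP_80160f_co.Frac.Farkas

/-!
# Directed triangle decompositions: the optimal potentials

`V` is a finite set, `A` the arcs of a balanced digraph on `V`, `y` a weighting of the arcs. We minimise
`∑ (P v - Q v) ^ (4/3)` over the potentials `P ≥ Q` with `0 ≤ y a b + P a - Q b` on every arc. The
conditions of optimality give a circulation `x`, supported on the tight arcs, with
`(∑ b, x a b) ^ 3 = P a - Q a`.
-/

set_option autoImplicit false

namespace DiTri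

open Finset

/-- the lemma of Farkas for a finite family -/
theorem farkas_fintype {ι E : Type*} [Fintype ι] [AddCommGroup E] [Module ℝ E]
    (A : ι → E →ₗ[ℝ] ℝ) (l : E →ₗ[ℝ] ℝ) (h : ∀ x, (∀ i, 0 ≤ A i x) → 0 ≤ l x) :
    ∃ c : ι → ℝ, (∀ i, 0 ≤ c i) ∧ ∀ x, l x = ∑ i, c i * A i x := by
  classical
  set e := (Fintype.equivFin ι).symm with he
  obtain ⟨c, hc, hl⟩ := TB.Frac.farkas (Fintype.card ι) (fun k => A (e k)) l
    (fun x hx => h x fun i => by
      have h1 := hx (e.symm i)
      rwa [Equiv.apply_symm_apply] at h1)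
  refine ⟨fun i => c (e.symm i), fun i => hc _, fun x => ?_⟩
  rw [hl, LinearMap.sum_apply]
  simp only [LinearMap.smul_apply, smul_eq_mul]
  refine Fintype.sum_equiv e _ _ fun k => ?_
  rw [Equiv.symm_apply_apply]

variable {V : Type*} [Fintype V]

/-- the number of arcs from `v` -/
noncomputable def deg (A : V → V → Prop) [DecidableRel A] (v : V) : ℝ :=
  ∑ b, if A v b then (1 : ℝ) else 0

/-- the feasible potentials -/
def Feas (A : V → V → Prop) (y : V → V → ℝ) : Set ((V → ℝ) × (V → ℝ)) :=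
  {pq | (∀ a b, A a b → 0 ≤ y a b + pq.1 a - pq.2 b) ∧ ∀ a, pq.2 a ≤ pq.1 a}

/-- the objective -/
noncomputable def obj (pq : (V → ℝ) × (V → ℝ)) : ℝ := ∑ v, (pq.1 v - pq.2 v) ^ (4 / 3 : ℝ)

theorem obj_continuous : Continuous (obj (V := V)) := by
  unfold obj
  refine continuous_finsetSum _ fun v _ => ?_
  refine Continuous.rpow_const ?_ fun _ => Or.inr (by norm_num)
  exact ((continuous_apply v).comp continuous_fst).sub ((continuous_apply v).comp continuous_snd)

omit [Fintype V] in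
theorem feas_closed (A : V → V → Prop) (y : V → V → ℝ) : IsClosed (Feas A y) := by
  have h1 : Feas A y = (⋂ i : V, ⋂ j : V, ⋂ _ : A i j,
      {pq : (V → ℝ) × (V → ℝ) | 0 ≤ y i j + pq.1 i - pq.2 j}) ∩
      ⋂ i : V, {pq : (V → ℝ) × (V → ℝ) | pq.2 i ≤ pq.1 i} := by
    ext r
    simp [Feas]
  rw [h1]
  refine IsClosed.inter ?_ ?_
  · refine isClosed_iInter fun i => isClosed_iInter fun j => isClosed_iInter fun _ => ?_
    exact isClosed_le continuous_const
      ((continuous_const.add ((continuous_apply i).comp continuous_fst)).sub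
        ((continuous_apply j).comp continuous_snd))
  · refine isClosed_iInter fun i => ?_
    exact isClosed_le ((continuous_apply i).comp continuous_snd)
      ((continuous_apply i).comp continuous_fst)

/-- the sum of the slacks -/
theorem slack_sum (A : V → V → Prop) [DecidableRel A]
    (hbal : ∀ v, (∑ b, if A b v then (1 : ℝ) else 0) = deg A v) (y : V → V → ℝ)
    (P Q : V → ℝ) :
    ∑ a, ∑ b, (if A a b then y a b + P a - Q b else 0) =
      (∑ a, ∑ b, if A a b then y a b else 0) + ∑ v, deg A v * (P v - Q v) := by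
  have h1 : ∀ a b, (if A a b then y a b + P a - Q b else 0) =
      (if A a b then y a b else 0) + (if A a b then (1 : ℝ) else 0) * P a -
        (if A a b then (1 : ℝ) else 0) * Q b := by
    intro a b
    split_ifs <;> ring
  simp only [h1, sum_sub_distrib, sum_add_distrib]
  have h2 : ∑ a, ∑ b, (if A a b then (1 : ℝ) else 0) * P a = ∑ v, deg A v * P v := by
    refine sum_congr rfl fun a _ => ?_
    rw [deg, sum_mul]
  have h3 : ∑ a, ∑ b, (if A a b then (1 : ℝ) else 0) * Q b = ∑ v, deg A v * Q v := by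
    rw [sum_comm]
    refine sum_congr rfl fun b _ => ?_
    rw [← hbal b, sum_mul]
  rw [h2, h3]
  simp only [mul_sub, sum_sub_distrib]
  ring

theorem rpow_small {R C : ℝ} (h0 : 0 ≤ R) (h : R ^ (4 / 3 : ℝ) ≤ C) : R ≤ 1 + C := by
  have hC : 0 ≤ C := (Real.rpow_nonneg h0 _).trans h
  rcases le_total R 1 with h1 | h1
  · linarith
  · have h2 : R ^ (1 : ℝ) ≤ R ^ (4 / 3 : ℝ) := Real.rpow_le_rpow_of_exponent_le h1 (by norm_num)
    rw [Real.rpow_one] at h2
    linarith

/-- the least value of the objective is attained -/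
theorem exists_opt (A : V → V → Prop) [DecidableRel A]
    (hbal : ∀ v, (∑ b, if A b v then (1 : ℝ) else 0) = deg A v)
    (hconn : ∀ u v, ∃ w, (A u w ∨ A w u) ∧ (A v w ∨ A w v)) (y : V → V → ℝ) :
    ∃ pq ∈ Feas A y, ∀ pq' ∈ Feas A y, obj pq ≤ obj pq' := by
  rcases isEmpty_or_nonempty V with hV | hV
  · exact ⟨(fun _ => 0, fun _ => 0), ⟨fun a => isEmptyElim a, fun a => isEmptyElim a⟩,
      fun pq' _ => by simp [obj]⟩
  obtain ⟨u₀⟩ := hV
  obtain ⟨W, hW0, hW⟩ : ∃ W : ℝ, 0 ≤ W ∧ ∀ i j, |y i j| ≤ W := by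
    refine ⟨∑ i, ∑ j, |y i j|, sum_nonneg fun i _ => sum_nonneg fun j _ => abs_nonneg _,
      fun i j => ?_⟩
    calc |y i j| ≤ ∑ j, |y i j| := single_le_sum (f := fun j => |y i j|)
          (fun j _ => abs_nonneg _) (mem_univ j)
      _ ≤ ∑ i, ∑ j, |y i j| := single_le_sum (f := fun i => ∑ j, |y i j|)
          (fun i _ => sum_nonneg fun j _ => abs_nonneg _) (mem_univ i)
  set pq₀ : (V → ℝ) × (V → ℝ) := (fun _ => W, fun _ => 0) with hpq₀
  have hfe₀ : pq₀ ∈ Feas A y := by
    refine ⟨fun a b _ => ?_, fun a => hW0⟩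
    have h1 := (abs_le.1 (hW a b)).1
    simp only [hpq₀]
    linarith
  set C : ℝ := obj pq₀ with hC
  have hC0 : 0 ≤ C := sum_nonneg fun v _ => Real.rpow_nonneg (by simpa [hpq₀] using hW0) _
  set N : ℝ := (Fintype.card V : ℝ) with hN
  have hN0 : 0 ≤ N := by positivity
  have hdegN : ∀ v, deg A v ≤ N := by
    intro v
    calc deg A v ≤ ∑ _b : V, (1 : ℝ) := sum_le_sum fun b _ => by split_ifs <;> norm_num
      _ = N := by simp [hN]
  set Z : ℝ := N * (N * W) + N * (N * (1 + C)) with hZ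
  set D : ℝ := W + (1 + C) + Z with hD
  have hZ0 : 0 ≤ Z := by positivity
  have hD0 : 0 ≤ D := by positivity
  -- bounds for a feasible pair with small objective
  have hR : ∀ pq ∈ Feas A y, obj pq ≤ C → ∀ v, pq.1 v - pq.2 v ≤ 1 + C := by
    intro pq hpq hle v
    have h0 : ∀ w, 0 ≤ pq.1 w - pq.2 w := fun w => sub_nonneg.2 (hpq.2 w)
    refine rpow_small (h0 v) (le_trans ?_ hle)
    exact single_le_sum (f := fun w => (pq.1 w - pq.2 w) ^ (4 / 3 : ℝ))
      (fun w _ => Real.rpow_nonneg (h0 w) _) (mem_univ v)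
  have hslack : ∀ pq ∈ Feas A y, obj pq ≤ C → ∀ a b, A a b → y a b + pq.1 a - pq.2 b ≤ Z := by
    intro pq hpq hle a b hab
    have h1 := slack_sum A hbal y pq.1 pq.2
    have h2 : y a b + pq.1 a - pq.2 b ≤
        ∑ a, ∑ b, (if A a b then y a b + pq.1 a - pq.2 b else 0) := by
      have h3 : ∀ a b, 0 ≤ (if A a b then y a b + pq.1 a - pq.2 b else 0) := by
        intro a b
        split_ifs with h
        · exact hpq.1 a b h
        · exact le_rfl
      calc y a b + pq.1 a - pq.2 b = (if A a b then y a b + pq.1 a - pq.2 b else 0) := by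
            rw [if_pos hab]
        _ ≤ ∑ b, (if A a b then y a b + pq.1 a - pq.2 b else 0) :=
            single_le_sum (f := fun b => if A a b then y a b + pq.1 a - pq.2 b else 0)
              (fun b _ => h3 a b) (mem_univ b)
        _ ≤ _ := single_le_sum
              (f := fun a => ∑ b, if A a b then y a b + pq.1 a - pq.2 b else 0)
              (fun a _ => sum_nonneg fun b _ => h3 a b) (mem_univ a)
    have h4 : (∑ a, ∑ b, if A a b then y a b else 0) ≤ N * (N * W) := by
      calc (∑ a, ∑ b, if A a b then y a b else 0) ≤ ∑ _a : V, ∑ _b : V, W :=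
            sum_le_sum fun a _ => sum_le_sum fun b _ => by
              split_ifs
              · exact (abs_le.1 (hW a b)).2
              · exact hW0
        _ = N * (N * W) := by simp [hN]
    have h5 : ∑ v, deg A v * (pq.1 v - pq.2 v) ≤ N * (N * (1 + C)) := by
      calc ∑ v, deg A v * (pq.1 v - pq.2 v) ≤ ∑ _v : V, N * (1 + C) :=
            sum_le_sum fun v _ => mul_le_mul (hdegN v) (hR pq hpq hle v)
              (sub_nonneg.2 (hpq.2 v)) hN0
        _ = N * (N * (1 + C)) := by simp [hN]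
    rw [h1] at h2
    rw [hZ]
    linarith
  have hQ : ∀ pq ∈ Feas A y, obj pq ≤ C → ∀ a b, (A a b ∨ A b a) → |pq.2 a - pq.2 b| ≤ D := by
    intro pq hpq hle
    have key : ∀ a b, A a b → |pq.2 a - pq.2 b| ≤ D := by
      intro a b hab
      have h1 := hslack pq hpq hle a b hab
      have h2 := hpq.1 a b hab
      have h3 := hR pq hpq hle a
      have h4 := hpq.2 a
      have h5 := abs_le.1 (hW a b)
      rw [abs_le]
      constructor
      · rw [hD]; linarith [h5.2]
      · rw [hD]; linarith [h5.1]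
    rintro a b (h | h)
    · exact key a b h
    · rw [abs_sub_comm]; exact key b a h
  set K : Set ((V → ℝ) × (V → ℝ)) := (Feas A y ∩ {pq | obj pq ≤ C}) ∩ {pq | pq.2 u₀ = 0} with hK
  have hKc : IsCompact K := by
    have h1 : IsClosed K := by
      refine IsClosed.inter ((feas_closed A y).inter
        (isClosed_le obj_continuous continuous_const)) ?_
      exact isClosed_eq ((continuous_apply u₀).comp continuous_snd) continuous_const
    have h2 : K ⊆ (Set.pi Set.univ fun _ : V => Set.Icc (-(2 * D)) (2 * D + (1 + C))) ×ˢ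
        (Set.pi Set.univ fun _ : V => Set.Icc (-(2 * D)) (2 * D)) := by
      intro pq hpq
      have h3 : ∀ v, |pq.2 v| ≤ 2 * D := by
        intro v
        obtain ⟨w, hw1, hw2⟩ := hconn v u₀
        have h4 := hQ pq hpq.1.1 hpq.1.2 v w hw1
        have h5 := hQ pq hpq.1.1 hpq.1.2 w u₀ (hw2.symm)
        have h6 : pq.2 u₀ = 0 := hpq.2
        rw [h6, sub_zero] at h5
        calc |pq.2 v| = |(pq.2 v - pq.2 w) + pq.2 w| := by ring_nf
          _ ≤ |pq.2 v - pq.2 w| + |pq.2 w| := abs_add_le _ _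
          _ ≤ 2 * D := by linarith
      refine ⟨fun v _ => ?_, fun v _ => abs_le.1 (h3 v)⟩
      have h4 := abs_le.1 (h3 v)
      have h5 := hR pq hpq.1.1 hpq.1.2 v
      have h6 := hpq.1.1.2 v
      constructor <;> linarith [h4.1, h4.2]
    exact ((isCompact_univ_pi fun _ => isCompact_Icc).prod
      (isCompact_univ_pi fun _ => isCompact_Icc)).of_isClosed_subset h1 h2
  obtain ⟨pq, hpq, hmin⟩ := hKc.exists_isMinOn ⟨pq₀, ⟨hfe₀, show obj pq₀ ≤ C from le_rfl⟩, rfl⟩
    obj_continuous.continuousOn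
  refine ⟨pq, hpq.1.1, fun pq' hpq' => ?_⟩
  by_cases h : obj pq' ≤ C
  · have hsh : obj ((fun v => pq'.1 v - pq'.2 u₀, fun v => pq'.2 v - pq'.2 u₀) :
        (V → ℝ) × (V → ℝ)) = obj pq' := by
      unfold obj
      refine sum_congr rfl fun v _ => ?_
      congr 1
      ring
    rw [← hsh]
    refine hmin ⟨⟨⟨fun a b hab => ?_, fun a => ?_⟩, ?_⟩, ?_⟩
    · have := hpq'.1 a b hab
      simp only
      linarith
    · have := hpq'.2 a
      simp only
      linarith
    · show obj _ ≤ C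
      rw [hsh]; exact h
    · simp
  · push Not at h
    exact hpq.1.2.trans h.le

/-- the derivative of the objective in a feasible direction is nonnegative -/
theorem opt_deriv (A : V → V → Prop) (y : V → V → ℝ) (P Q : V → ℝ)
    (hpq : (P, Q) ∈ Feas A y) (hmin : ∀ pq' ∈ Feas A y, obj (P, Q) ≤ obj pq')
    (p q : V → ℝ) (h1 : ∀ a b, A a b → y a b + P a - Q b = 0 → 0 ≤ p a - q b)
    (h2 : ∀ v, P v - Q v = 0 → 0 ≤ p v - q v) :
    0 ≤ ∑ v, (P v - Q v) ^ (1 / 3 : ℝ) * (p v - q v) := by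
  classical
  by_contra hneg
  push Not at hneg
  set L : ℝ := ∑ v, (P v - Q v) ^ (1 / 3 : ℝ) * (p v - q v) with hL
  have hd : HasDerivAt (fun t : ℝ => ∑ v, (P v + t * p v - (Q v + t * q v)) ^ (4 / 3 : ℝ))
      (∑ v, (p v - q v) * (4 / 3) * (P v - Q v) ^ (4 / 3 - 1 : ℝ)) 0 := by
    refine HasDerivAt.fun_sum fun v _ => ?_
    have h3 : HasDerivAt (fun t : ℝ => P v + t * p v - (Q v + t * q v)) (p v - q v) 0 := by
      have h4 : HasDerivAt (fun t : ℝ => t * p v) (1 * p v) 0 := (hasDerivAt_id 0).mul_const _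
      have h5 : HasDerivAt (fun t : ℝ => t * q v) (1 * q v) 0 := (hasDerivAt_id 0).mul_const _
      have h6 := (h4.const_add (P v)).fun_sub (h5.const_add (Q v))
      simpa using h6
    have h7 := h3.rpow_const (p := (4 / 3 : ℝ)) (Or.inr (by norm_num))
    simpa using h7
  have hd2 : (∑ v, (p v - q v) * (4 / 3) * (P v - Q v) ^ (4 / 3 - 1 : ℝ)) = 4 / 3 * L := by
    rw [hL, mul_sum]
    refine sum_congr rfl fun v _ => ?_
    have : (4 / 3 - 1 : ℝ) = 1 / 3 := by norm_num
    rw [this]; ring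
  rw [hd2, hasDerivAt_iff_tendsto_slope_zero] at hd
  have hd3 : ∀ᶠ t : ℝ in nhdsWithin 0 {0}ᶜ, t⁻¹ • ((∑ v, (P v + (0 + t) * p v -
      (Q v + (0 + t) * q v)) ^ (4 / 3 : ℝ)) - ∑ v, (P v + 0 * p v - (Q v + 0 * q v)) ^
        (4 / 3 : ℝ)) < 0 := hd.eventually (gt_mem_nhds (by linarith))
  have hd4 : ∀ᶠ t : ℝ in nhdsWithin 0 (Set.Ioi 0), t⁻¹ • ((∑ v, (P v + (0 + t) * p v -
      (Q v + (0 + t) * q v)) ^ (4 / 3 : ℝ)) - ∑ v, (P v + 0 * p v - (Q v + 0 * q v)) ^
        (4 / 3 : ℝ)) < 0 :=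
    hd3.filter_mono (nhdsWithin_mono (0 : ℝ) fun t ht => ne_of_gt (Set.mem_Ioi.1 ht))
  have hf1 : ∀ a b, ∀ᶠ t : ℝ in nhdsWithin 0 (Set.Ioi 0), A a b →
      0 ≤ y a b + (P a + t * p a) - (Q b + t * q b) := by
    intro a b
    by_cases hab : A a b
    · rcases (hpq.1 a b hab).eq_or_lt with h3 | h3
      · filter_upwards [self_mem_nhdsWithin] with t ht _
        have h4 := h1 a b hab h3.symm
        have h5 : 0 ≤ t * (p a - q b) := mul_nonneg (le_of_lt ht) h4
        have h6 : y a b + P a - Q b = 0 := h3.symm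
        linarith
      · have h4 : Filter.Tendsto (fun t : ℝ => y a b + (P a + t * p a) - (Q b + t * q b))
            (nhds 0) (nhds (y a b + (P a + 0 * p a) - (Q b + 0 * q b))) := by
          apply Continuous.tendsto
          fun_prop
        have h5 : (0 : ℝ) < y a b + (P a + 0 * p a) - (Q b + 0 * q b) := by
          simpa using h3
        filter_upwards [nhdsWithin_le_nhds (h4.eventually (lt_mem_nhds h5))] with t ht _
        exact ht.le
    · exact Filter.Eventually.of_forall fun t h => absurd h hab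
  have hf2 : ∀ v, ∀ᶠ t : ℝ in nhdsWithin 0 (Set.Ioi 0), Q v + t * q v ≤ P v + t * p v := by
    intro v
    rcases (hpq.2 v).eq_or_lt with h3 | h3
    · filter_upwards [self_mem_nhdsWithin] with t ht
      have h4 := h2 v (by simp only at h3; linarith)
      have h5 : 0 ≤ t * (p v - q v) := mul_nonneg (le_of_lt ht) h4
      simp only at h3
      linarith
    · have h4 : Filter.Tendsto (fun t : ℝ => (P v + t * p v) - (Q v + t * q v))
          (nhds 0) (nhds ((P v + 0 * p v) - (Q v + 0 * q v))) := by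
        apply Continuous.tendsto
        fun_prop
      have h5 : (0 : ℝ) < (P v + 0 * p v) - (Q v + 0 * q v) := by
        simpa using h3
      filter_upwards [nhdsWithin_le_nhds (h4.eventually (lt_mem_nhds h5))] with t ht
      linarith
  have hall := (((Filter.eventually_all.2 fun a => Filter.eventually_all.2 (hf1 a)).and
    (Filter.eventually_all.2 hf2)).and hd4).and
    (self_mem_nhdsWithin (a := (0 : ℝ)) (s := Set.Ioi 0))
  obtain ⟨t, ⟨⟨ht1, ht2⟩, ht3⟩, ht4⟩ := hall.exists
  have h3 := hmin (fun v => P v + t * p v, fun v => Q v + t * q v) ⟨ht1, ht2⟩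
  have ht0 : (0 : ℝ) < t := ht4
  unfold obj at h3
  simp only [zero_mul, add_zero, zero_add, smul_eq_mul] at ht3 h3
  have h4 : 0 ≤ t⁻¹ * ((∑ v, (P v + t * p v - (Q v + t * q v)) ^ (4 / 3 : ℝ)) -
      ∑ v, (P v - Q v) ^ (4 / 3 : ℝ)) :=
    mul_nonneg (inv_nonneg.2 ht0.le) (sub_nonneg.2 h3)
  linarith

/-- **the optimal potentials and the circulation** -/
theorem exists_kkt (A : V → V → Prop) [DecidableRel A]
    (hbal : ∀ v, (∑ b, if A b v then (1 : ℝ) else 0) = deg A v)
    (hconn : ∀ u v, ∃ w, (A u w ∨ A w u) ∧ (A v w ∨ A w v)) (y : V → V → ℝ) :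
    ∃ (P Q X : V → ℝ) (x : V → V → ℝ), (∀ a b, A a b → 0 ≤ y a b + P a - Q b) ∧
      (∀ a, 0 ≤ X a) ∧ (∀ a, P a - Q a = X a ^ 3) ∧ (∀ a b, 0 ≤ x a b) ∧
      (∀ a b, x a b ≠ 0 → A a b ∧ y a b + P a - Q b = 0) ∧
      (∀ a, ∑ b, x a b = X a) ∧ ∀ b, ∑ a, x a b = X b := by
  classical
  obtain ⟨⟨P, Q⟩, hpq, hmin⟩ := exists_opt A hbal hconn y
  set X : V → ℝ := fun v => (P v - Q v) ^ (1 / 3 : ℝ) with hX
  have hR0 : ∀ v, 0 ≤ P v - Q v := fun v => sub_nonneg.2 (hpq.2 v)
  have hX0 : ∀ v, 0 ≤ X v := fun v => Real.rpow_nonneg (hR0 v) _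
  have hX3 : ∀ v, P v - Q v = X v ^ 3 := by
    intro v
    simp only [hX]
    rw [← Real.rpow_natCast, ← Real.rpow_mul (hR0 v)]
    norm_num
  have hXz : ∀ v, P v - Q v = 0 → X v = 0 := by
    intro v hv
    simp only [hX]
    rw [hv]
    exact Real.zero_rpow (by norm_num)
  set tight : V → V → Prop := fun a b => A a b ∧ y a b + P a - Q b = 0 with ht
  -- the functionals
  let fP : V → ((V → ℝ) × (V → ℝ)) →ₗ[ℝ] ℝ := fun a =>
    (LinearMap.proj a : (V → ℝ) →ₗ[ℝ] ℝ).comp (LinearMap.fst ℝ (V → ℝ) (V → ℝ))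
  let fQ : V → ((V → ℝ) × (V → ℝ)) →ₗ[ℝ] ℝ := fun a =>
    (LinearMap.proj a : (V → ℝ) →ₗ[ℝ] ℝ).comp (LinearMap.snd ℝ (V → ℝ) (V → ℝ))
  have hfP : ∀ a d, fP a d = d.1 a := fun a d => rfl
  have hfQ : ∀ a d, fQ a d = d.2 a := fun a d => rfl
  let B : (V × V) ⊕ V → ((V → ℝ) × (V → ℝ)) →ₗ[ℝ] ℝ := fun i => match i with
    | Sum.inl e => if tight e.1 e.2 then fP e.1 - fQ e.2 else 0
    | Sum.inr v => if P v - Q v = 0 then fP v - fQ v else 0
  have hB1 : ∀ a b d, B (Sum.inl (a, b)) d = if tight a b then d.1 a - d.2 b else 0 := by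
    intro a b d
    simp only [B]
    split_ifs
    · simp [hfP, hfQ]
    · simp
  have hB2 : ∀ v d, B (Sum.inr v) d = if P v - Q v = 0 then d.1 v - d.2 v else 0 := by
    intro v d
    simp only [B]
    split_ifs
    · simp [hfP, hfQ]
    · simp
  let l : ((V → ℝ) × (V → ℝ)) →ₗ[ℝ] ℝ := ∑ v, X v • (fP v - fQ v)
  have hl : ∀ d, l d = ∑ v, X v * (d.1 v - d.2 v) := by
    intro d
    simp [l, LinearMap.sum_apply, hfP, hfQ]
  obtain ⟨c, hc, hcl⟩ := farkas_fintype B l (by
    rintro ⟨p, q⟩ hd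
    rw [hl]
    refine opt_deriv A y P Q hpq hmin p q (fun a b hab h => ?_) fun v hv => ?_
    · have h1 := hd (Sum.inl (a, b))
      rw [hB1, if_pos ⟨hab, h⟩] at h1
      exact h1
    · have h1 := hd (Sum.inr v)
      rw [hB2, if_pos hv] at h1
      exact h1)
  set x : V → V → ℝ := fun a b => if tight a b then c (Sum.inl (a, b)) else 0 with hx
  set s : V → ℝ := fun v => if P v - Q v = 0 then c (Sum.inr v) else 0 with hs
  have hx0 : ∀ a b, 0 ≤ x a b := by
    intro a b
    simp only [hx]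
    split_ifs
    · exact hc _
    · exact le_rfl
  have hs0 : ∀ v, 0 ≤ s v := by
    intro v
    simp only [hs]
    split_ifs
    · exact hc _
    · exact le_rfl
  have hmain : ∀ d : (V → ℝ) × (V → ℝ), ∑ v, X v * (d.1 v - d.2 v) =
      ∑ a, ∑ b, x a b * (d.1 a - d.2 b) + ∑ v, s v * (d.1 v - d.2 v) := by
    intro d
    rw [← hl, hcl, Fintype.sum_sum_type, Fintype.sum_prod_type]
    congr 1
    · refine sum_congr rfl fun a _ => sum_congr rfl fun b _ => ?_
      rw [hB1]
      simp only [hx]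
      split_ifs <;> ring
    · refine sum_congr rfl fun v _ => ?_
      rw [hB2]
      simp only [hs]
      split_ifs <;> ring
  have hout : ∀ v, X v = ∑ b, x v b + s v := by
    intro v
    have h1 := hmain (Pi.single v 1, 0)
    simp only [Pi.zero_apply, sub_zero, Pi.single_apply, mul_ite, mul_one, mul_zero,
      sum_ite_eq', mem_univ, if_true] at h1
    rw [h1]
    congr 1
    rw [sum_eq_single v]
    · simp
    · intro a _ ha
      simp [ha]
    · intro h
      exact absurd (mem_univ v) h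
  have hin : ∀ v, X v = ∑ a, x a v + s v := by
    intro v
    have h1 := hmain (0, Pi.single v 1)
    simp only [Pi.zero_apply, zero_sub, Pi.single_apply, mul_neg, mul_ite, mul_one, mul_zero,
      sum_neg_distrib, sum_ite_eq', mem_univ, if_true] at h1
    linarith
  have hsz : ∀ v, s v = 0 := by
    intro v
    by_cases hv : P v - Q v = 0
    · have h1 := hout v
      rw [hXz v hv] at h1
      have h2 : 0 ≤ ∑ b, x v b := sum_nonneg fun b _ => hx0 v b
      have h3 := hs0 v
      linarith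
    · simp only [hs]
      rw [if_neg hv]
  refine ⟨P, Q, X, x, hpq.1, hX0, hX3, hx0, fun a b h => ?_, fun a => ?_, fun b => ?_⟩
  · by_contra h2
    exact h (if_neg h2)
  · rw [hout a, hsz a, add_zero]
  · rw [hin b, hsz b, add_zero]

end DiTri
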