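import Pool.Agent.Lib.MP_cb9986_co.FNW.DiCov
import Pool.Agent.Lib.MP_cb9986_co.FNW.DiKkt

/-!
# Directed triangle decompositions: the theorem

A balanced digraph in which every arc `(a, b)` lies in at least `(2/3) max (deg a) (deg b)` directed
triangles has a fractional decomposition into directed triangles.
-/

set_option autoImplicit false

namespace DiTri

open Finset

variable {V : Type*} [Fintype V]

/-- the weight of the triangle `a b c` with base `a b` -/
noncomputable def wt (good : V → V → V → Prop) [∀ a b c, Decidable (good a b c)]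
    (X : V → ℝ) (x : V → V → ℝ) (a b c : V) : ℝ :=
  if good a b c then 3 / 4 * x a b * ((X a ^ 2 + X b ^ 2) / (X a ^ 3 + X b ^ 3 + X c ^ 3)) else 0

/-- the number of triangles on an arc -/
noncomputable def cnt (good : V → V → V → Prop) [∀ a b c, Decidable (good a b c)] (a b : V) : ℝ :=
  ∑ c, if good a b c then (1 : ℝ) else 0

omit [Fintype V] in
theorem wt_nonneg (good : V → V → V → Prop) [∀ a b c, Decidable (good a b c)]
    (X : V → ℝ) (x : V → V → ℝ) (hX : ∀ a, 0 ≤ X a) (hx : ∀ a b, 0 ≤ x a b) (a b c : V) :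
    0 ≤ wt good X x a b c := by
  unfold wt
  have h1 := hX a
  have h2 := hX b
  have h3 := hX c
  have h4 := hx a b
  split_ifs
  · positivity
  · exact le_rfl

/-- the part of the coverage of `s t` that comes from the arcs into `s` -/
theorem cov_in (good : V → V → V → Prop) [∀ a b c, Decidable (good a b c)]
    (X : V → ℝ) (x : V → V → ℝ) (hX : ∀ a, 0 ≤ X a) (hx : ∀ a b, 0 ≤ x a b)
    (s t : V) (hin : ∑ a, x a s = X s) (Y : ℝ) (hY : 0 ≤ Y)
    (h : ∀ a, 0 ≤ a → X s * (X s ^ 2 + a ^ 2) ≤ 2 / 3 * Y * (X s ^ 3 + X t ^ 3 + a ^ 3)) :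
    ∑ a, wt good X x a s t ≤ Y / 2 := by
  rcases (hX s).eq_or_lt with h0 | h0
  · have h1 : ∀ a, x a s = 0 := by
      intro a
      rw [← h0] at hin
      exact (sum_eq_zero_iff_of_nonneg fun a _ => hx a s).1 hin a (mem_univ a)
    have h2 : ∑ a, wt good X x a s t = 0 := by
      refine sum_eq_zero fun a _ => ?_
      unfold wt
      rw [h1 a]
      simp
    rw [h2]
    positivity
  · have h1 : ∀ a, wt good X x a s t ≤ x a s * (Y / (2 * X s)) := by
      intro a
      have ha := hX a
      have ht := hX t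
      have hxa := hx a s
      have h2 := h (X a) ha
      have hden : 0 < X a ^ 3 + X s ^ 3 + X t ^ 3 := by positivity
      have h3 : (X a ^ 2 + X s ^ 2) / (X a ^ 3 + X s ^ 3 + X t ^ 3) ≤ 2 / 3 * Y / X s := by
        rw [div_le_div_iff₀ hden h0]
        nlinarith [h2]
      unfold wt
      split_ifs
      · calc 3 / 4 * x a s * ((X a ^ 2 + X s ^ 2) / (X a ^ 3 + X s ^ 3 + X t ^ 3)) ≤
              3 / 4 * x a s * (2 / 3 * Y / X s) := mul_le_mul_of_nonneg_left h3 (by positivity)
          _ = x a s * (Y / (2 * X s)) := by field_simp; ring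
      · positivity
    calc ∑ a, wt good X x a s t ≤ ∑ a, x a s * (Y / (2 * X s)) := sum_le_sum fun a _ => h1 a
      _ = X s * (Y / (2 * X s)) := by rw [← sum_mul, hin]
      _ = Y / 2 := by field_simp

/-- the part of the coverage of `s t` that comes from the arcs out of `t` -/
theorem cov_out (good : V → V → V → Prop) [∀ a b c, Decidable (good a b c)]
    (X : V → ℝ) (x : V → V → ℝ) (hX : ∀ a, 0 ≤ X a) (hx : ∀ a b, 0 ≤ x a b)
    (s t : V) (hout : ∑ b, x t b = X t) (Y : ℝ) (hY : 0 ≤ Y)
    (h : ∀ a, 0 ≤ a → X t * (X t ^ 2 + a ^ 2) ≤ 2 / 3 * Y * (X s ^ 3 + X t ^ 3 + a ^ 3)) :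
    ∑ b, wt good X x t b s ≤ Y / 2 := by
  rcases (hX t).eq_or_lt with h0 | h0
  · have h1 : ∀ b, x t b = 0 := by
      intro b
      rw [← h0] at hout
      exact (sum_eq_zero_iff_of_nonneg fun b _ => hx t b).1 hout b (mem_univ b)
    have h2 : ∑ b, wt good X x t b s = 0 := by
      refine sum_eq_zero fun b _ => ?_
      unfold wt
      rw [h1 b]
      simp
    rw [h2]
    positivity
  · have h1 : ∀ b, wt good X x t b s ≤ x t b * (Y / (2 * X t)) := by
      intro b
      have hb := hX b
      have hs := hX s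
      have hxb := hx t b
      have h2 := h (X b) hb
      have hden : 0 < X t ^ 3 + X b ^ 3 + X s ^ 3 := by positivity
      have h3 : (X t ^ 2 + X b ^ 2) / (X t ^ 3 + X b ^ 3 + X s ^ 3) ≤ 2 / 3 * Y / X t := by
        rw [div_le_div_iff₀ hden h0]
        nlinarith [h2]
      unfold wt
      split_ifs
      · calc 3 / 4 * x t b * ((X t ^ 2 + X b ^ 2) / (X t ^ 3 + X b ^ 3 + X s ^ 3)) ≤
              3 / 4 * x t b * (2 / 3 * Y / X t) := mul_le_mul_of_nonneg_left h3 (by positivity)
          _ = x t b * (Y / (2 * X t)) := by field_simp; ring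
      · positivity
    calc ∑ b, wt good X x t b s ≤ ∑ b, x t b * (Y / (2 * X t)) := sum_le_sum fun b _ => h1 b
      _ = X t * (Y / (2 * X t)) := by rw [← sum_mul, hout]
      _ = Y / 2 := by field_simp

/-- **the dual inequality** -/
theorem dual_nonneg (A : V → V → Prop) [DecidableRel A]
    (good : V → V → V → Prop) [∀ a b c, Decidable (good a b c)]
    (hcyc : ∀ a b c, good a b c → good b c a) (hgood : ∀ a b c, good a b c → A a b)
    (hbal : ∀ v, (∑ b, if A b v then (1 : ℝ) else 0) = deg A v)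
    (hconn : ∀ u v, ∃ w, (A u w ∨ A w u) ∧ (A v w ∨ A w v))
    (hcnt : ∀ a b, A a b → 2 * deg A a ≤ 3 * cnt good a b ∧ 2 * deg A b ≤ 3 * cnt good a b)
    (y : V → V → ℝ) (hy : ∀ a b c, good a b c → 0 ≤ y a b + y b c + y c a) :
    0 ≤ ∑ a, ∑ b, if A a b then y a b else 0 := by
  obtain ⟨P, Q, X, x, hz, hX, hR, hx, hxt, hout, hin⟩ := exists_kkt A hbal hconn y
  set z : V → V → ℝ := fun a b => if A a b then y a b + P a - Q b else 0 with hzdef
  have hz0 : ∀ a b, 0 ≤ z a b := by
    intro a b
    simp only [hzdef]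
    split_ifs with h
    · exact hz a b h
    · exact le_rfl
  have hsum := slack_sum A hbal y P Q
  have hW0 := wt_nonneg good X x hX hx
  -- the triangles
  have h1 : ∀ a b c, (if good a b c then 3 / 4 * x a b * (X a ^ 2 + X b ^ 2) else 0) ≤
      wt good X x a b c * (z b c + z c a) := by
    intro a b c
    by_cases hg : good a b c
    · rw [if_pos hg]
      by_cases hx0 : x a b = 0
      · rw [hx0]
        simp only [mul_zero, zero_mul]
        exact mul_nonneg (hW0 a b c) (add_nonneg (hz0 b c) (hz0 c a))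
      · obtain ⟨hA, ht⟩ := hxt a b hx0
        have hxp : 0 < x a b := lt_of_le_of_ne (hx a b) (Ne.symm hx0)
        have hXa : 0 < X a := by
          rw [← hout a]
          exact hxp.trans_le (single_le_sum (f := fun b => x a b) (fun b _ => hx a b) (mem_univ b))
        have hXb := hX b
        have hXc := hX c
        have hden : 0 < X a ^ 3 + X b ^ 3 + X c ^ 3 := by positivity
        have hbc : A b c := hgood _ _ _ (hcyc _ _ _ hg)
        have hca : A c a := hgood _ _ _ (hcyc _ _ _ (hcyc _ _ _ hg))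
        have h2 : X a ^ 3 + X b ^ 3 + X c ^ 3 ≤ z b c + z c a := by
          simp only [hzdef]
          rw [if_pos hbc, if_pos hca, ← hR a, ← hR b, ← hR c]
          have := hy a b c hg
          linarith
        have h3 : wt good X x a b c * (X a ^ 3 + X b ^ 3 + X c ^ 3) =
            3 / 4 * x a b * (X a ^ 2 + X b ^ 2) := by
          unfold wt
          rw [if_pos hg]
          field_simp
        rw [← h3]
        exact mul_le_mul_of_nonneg_left h2 (hW0 a b c)
    · rw [if_neg hg]
      exact mul_nonneg (hW0 a b c) (add_nonneg (hz0 b c) (hz0 c a))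
  -- the coverage
  have hcov : ∀ s t, ∑ a, wt good X x a s t + ∑ b, wt good X x t b s ≤ 1 := by
    intro s t
    obtain ⟨Y, hY0, hY2, hs, ht⟩ := exists_split (hX s) (hX t)
    have h2 := cov_in good X x hX hx s t (hin s) Y hY0 hs
    have h3 := cov_out good X x hX hx s t (hout t) (2 - Y) (by linarith) ht
    linarith
  have h2 : ∑ a, ∑ b, ∑ c, wt good X x a b c * (z b c + z c a) ≤ ∑ s, ∑ t, z s t := by
    have e1 : ∑ a, ∑ b, ∑ c, wt good X x a b c * z b c =
        ∑ s, ∑ t, z s t * ∑ a, wt good X x a s t := by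
      rw [sum_comm]
      refine sum_congr rfl fun b _ => ?_
      rw [sum_comm]
      refine sum_congr rfl fun c _ => ?_
      rw [mul_sum]
      exact sum_congr rfl fun a _ => mul_comm _ _
    have e2 : ∑ a, ∑ b, ∑ c, wt good X x a b c * z c a =
        ∑ s, ∑ t, z s t * ∑ b, wt good X x t b s := by
      have e3 : ∀ a, ∑ b, ∑ c, wt good X x a b c * z c a =
          ∑ s, z s a * ∑ b, wt good X x a b s := by
        intro a
        rw [sum_comm]
        refine sum_congr rfl fun c _ => ?_
        rw [mul_sum]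
        exact sum_congr rfl fun b _ => mul_comm _ _
      simp only [e3]
      rw [sum_comm]
    have e4 : ∑ a, ∑ b, ∑ c, wt good X x a b c * (z b c + z c a) =
        ∑ s, ∑ t, z s t * (∑ a, wt good X x a s t + ∑ b, wt good X x t b s) := by
      simp only [mul_add, sum_add_distrib]
      rw [e1, e2]
    rw [e4]
    refine sum_le_sum fun s _ => sum_le_sum fun t _ => ?_
    exact mul_le_of_le_one_right (hz0 s t) (hcov s t)
  -- the total
  have h3 : ∑ v, deg A v * (P v - Q v) ≤
      ∑ a, ∑ b, ∑ c, (if good a b c then 3 / 4 * x a b * (X a ^ 2 + X b ^ 2) else 0) := by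
    have e1 : ∀ a b, ∑ c, (if good a b c then 3 / 4 * x a b * (X a ^ 2 + X b ^ 2) else 0) =
        3 / 4 * x a b * (X a ^ 2 + X b ^ 2) * cnt good a b := by
      intro a b
      rw [cnt, mul_sum]
      refine sum_congr rfl fun c _ => ?_
      split_ifs <;> ring
    simp only [e1]
    have e2 : ∀ a b, x a b * (1 / 2 * (deg A a * X a ^ 2)) + x a b * (1 / 2 * (deg A b * X b ^ 2)) ≤
        3 / 4 * x a b * (X a ^ 2 + X b ^ 2) * cnt good a b := by
      intro a b
      by_cases hx0 : x a b = 0
      · rw [hx0]; simp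
      · obtain ⟨hA, -⟩ := hxt a b hx0
        obtain ⟨c1, c2⟩ := hcnt a b hA
        have c3 : 0 ≤ x a b * X a ^ 2 * (3 * cnt good a b - 2 * deg A a) :=
          mul_nonneg (mul_nonneg (hx a b) (sq_nonneg _)) (by linarith)
        have c4 : 0 ≤ x a b * X b ^ 2 * (3 * cnt good a b - 2 * deg A b) :=
          mul_nonneg (mul_nonneg (hx a b) (sq_nonneg _)) (by linarith)
        nlinarith [c3, c4]
    refine le_trans (le_of_eq ?_) (sum_le_sum fun a _ => sum_le_sum fun b _ => e2 a b)
    simp only [sum_add_distrib]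
    have e3 : ∑ a, ∑ b, x a b * (1 / 2 * (deg A a * X a ^ 2)) =
        ∑ v, X v * (1 / 2 * (deg A v * X v ^ 2)) := by
      refine sum_congr rfl fun a _ => ?_
      rw [← sum_mul, hout a]
    have e4 : ∑ a, ∑ b, x a b * (1 / 2 * (deg A b * X b ^ 2)) =
        ∑ v, X v * (1 / 2 * (deg A v * X v ^ 2)) := by
      rw [sum_comm]
      refine sum_congr rfl fun b _ => ?_
      rw [← sum_mul, hin b]
    rw [e3, e4, ← sum_add_distrib]
    refine sum_congr rfl fun v _ => ?_
    rw [hR v]
    ring
  have h4 : ∑ a, ∑ b, ∑ c, (if good a b c then 3 / 4 * x a b * (X a ^ 2 + X b ^ 2) else 0) ≤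
      ∑ a, ∑ b, ∑ c, wt good X x a b c * (z b c + z c a) :=
    sum_le_sum fun a _ => sum_le_sum fun b _ => sum_le_sum fun c _ => h1 a b c
  have h5 : ∑ s, ∑ t, z s t = (∑ a, ∑ b, if A a b then y a b else 0) +
      ∑ v, deg A v * (P v - Q v) := hsum
  linarith

end DiTri
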