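import Pool.Agent.Lib.MP_cb9986_co.FNW.Sum
import Pool.Agent.Lib.MP_80160f_co.Frac.Farkas

/-!
# The fractional triangle decomposition threshold: duality

`farkas_fintype` : the lemma of Farkas for a finite family of functionals. `exists_matching` : a fractional
perfect matching with a complementary dual solution. `exists_decomposition` : the theorem.
-/

set_option autoImplicit false

namespace FNW

open Finset

/-- the lemma of Farkas for a finite family -/
theorem farkas_fintype {ι V : Type*} [Fintype ι] [AddCommGroup V] [Module ℝ V]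
    (A : ι → V →ₗ[ℝ] ℝ) (l : V →ₗ[ℝ] ℝ) (h : ∀ x, (∀ i, 0 ≤ A i x) → 0 ≤ l x) :
    ∃ c : ι → ℝ, (∀ i, 0 ≤ c i) ∧ ∀ x, l x = ∑ i, c i * A i x := by
  classical
  set e := (Fintype.equivFin ι).symm with he
  obtain ⟨c, hc, hl⟩ := TB.Frac.farkas (Fintype.card ι) (fun k => A (e k)) l
    (fun x hx => h x fun i => by
      have h1 := hx (e.symm i)
      rwa [Equiv.apply_symm_apply] at h1)
  refine ⟨fun i => c (e.symm i), fun i => hc _, fun x => ?_⟩
  rw [hl, LinearMap.sum_apply]
  simp only [LinearMap.smul_apply, smul_eq_mul]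
  refine Fintype.sum_equiv e _ _ fun k => ?_
  rw [Equiv.symm_apply_apply]

variable {V : Type*} [Fintype V] [DecidableEq V] (G : SimpleGraph V) [DecidableRel G.Adj]

/-- the feasible dual solutions -/
def Feas (y : V → V → ℝ) : Set (V → ℝ) := {r | ∀ i j, G.Adj i j → 0 ≤ y i j + r i + r j}

omit [Fintype V] [DecidableEq V] [DecidableRel G.Adj] in
theorem feas_closed (y : V → V → ℝ) : IsClosed (Feas G y) := by
  have h1 : Feas G y = ⋂ i : V, ⋂ j : V, ⋂ _ : G.Adj i j, {r : V → ℝ | 0 ≤ y i j + r i + r j} := by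
    ext r
    simp [Feas]
  rw [h1]
  refine isClosed_iInter fun i => isClosed_iInter fun j => isClosed_iInter fun _ => ?_
  exact isClosed_le continuous_const
    ((continuous_const.add (continuous_apply i)).add (continuous_apply j))

omit [DecidableEq V] in
/-- a lower bound for a feasible solution of bounded total -/
theorem feas_lower (hV : 0 < Fintype.card V) (hdeg : ∀ i, 3 * Fintype.card V ≤ 4 * G.degree i)
    (y : V → V → ℝ) (W C : ℝ) (hW0 : 0 ≤ W) (hC0 : 0 ≤ C) (hW : ∀ i j, y i j ≤ W) (r : V → ℝ)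
    (hr : r ∈ Feas G y) (hC : ∑ i, r i ≤ C) (i : V) : -(2 * C + 2 * W) ≤ r i := by
  have hn : (0 : ℝ) < Fintype.card V := by exact_mod_cast hV
  have hn1 : (1 : ℝ) ≤ Fintype.card V := by exact_mod_cast hV
  have _ : Nonempty V := Fintype.card_pos_iff.1 hV
  obtain ⟨i0, -, hi0⟩ := exists_min_image (univ : Finset V) r ⟨i, mem_univ i⟩
  have h1 : ∀ j, (if G.Adj i0 j then -W - r i0 else r i0) ≤ r j := by
    intro j
    by_cases h : G.Adj i0 j
    · rw [if_pos h]
      have h2 := hr i0 j h
      have h3 := hW i0 j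
      linarith
    · rw [if_neg h]
      exact hi0 j (mem_univ j)
  have h2 : ∑ j, (if G.Adj i0 j then -W - r i0 else r i0) ≤ C :=
    (sum_le_sum fun j _ => h1 j).trans hC
  have h3 : ∑ j, (if G.Adj i0 j then -W - r i0 else r i0) =
      ∑ j, ((-W - r i0) - (-W - 2 * r i0) * (if G.Adj i0 j then (0 : ℝ) else 1)) := by
    refine sum_congr rfl fun j _ => ?_
    split_ifs <;> ring
  have h4 : ∑ j, ((-W - r i0) - (-W - 2 * r i0) * (if G.Adj i0 j then (0 : ℝ) else 1)) =
      Fintype.card V * (-W - r i0) - (-W - 2 * r i0) * miss G i0 := by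
    rw [sum_sub_distrib, ← mul_sum]
    simp only [miss, sum_const, card_univ, nsmul_eq_mul]
  have h5 : miss G i0 ≤ Fintype.card V / 4 := by
    rw [miss_eq]
    have e1 : (3 * Fintype.card V : ℝ) ≤ 4 * G.degree i0 := by exact_mod_cast hdeg i0
    linarith
  have h6 : 0 ≤ miss G i0 := by
    unfold miss
    exact sum_nonneg fun j _ => by split_ifs <;> norm_num
  have h7 := hi0 i (mem_univ i)
  refine le_trans ?_ h7
  by_contra h8
  push Not at h8
  rw [h3, h4] at h2
  have h9 : 0 < -W - 2 * r i0 := by linarith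
  have h10 : (-W - 2 * r i0) * miss G i0 ≤ (-W - 2 * r i0) * (Fintype.card V / 4) :=
    mul_le_mul_of_nonneg_left h5 h9.le
  have h11 : (Fintype.card V : ℝ) * (-W - r i0) - (-W - 2 * r i0) * (Fintype.card V / 4) =
      Fintype.card V / 2 * (-(3 / 2) * W - r i0) := by ring
  have h12 : (Fintype.card V : ℝ) / 2 * (-(3 / 2) * W - r i0) ≤ C := by linarith
  have h13 : (1 : ℝ) / 2 * (-(3 / 2) * W - r i0) ≤ Fintype.card V / 2 * (-(3 / 2) * W - r i0) :=
    mul_le_mul_of_nonneg_right (by linarith) (by linarith)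
  linarith

omit [DecidableEq V] in
/-- a feasible dual solution of least total -/
theorem exists_min (hdeg : ∀ i, 3 * Fintype.card V ≤ 4 * G.degree i) (y : V → V → ℝ) :
    ∃ r ∈ Feas G y, ∀ r' ∈ Feas G y, ∑ i, r i ≤ ∑ i, r' i := by
  rcases Nat.eq_zero_or_pos (Fintype.card V) with hV | hV
  · have _ := Fintype.card_eq_zero_iff.1 hV
    exact ⟨fun _ => 0, fun i => isEmptyElim i, fun r' _ => by simp⟩
  obtain ⟨W, hW0, hW⟩ : ∃ W : ℝ, 0 ≤ W ∧ ∀ i j, |y i j| ≤ W := by
    refine ⟨∑ i, ∑ j, |y i j|, sum_nonneg fun i _ => sum_nonneg fun j _ => abs_nonneg _,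
      fun i j => ?_⟩
    calc |y i j| ≤ ∑ j, |y i j| := single_le_sum (f := fun j => |y i j|)
          (fun j _ => abs_nonneg _) (mem_univ j)
      _ ≤ ∑ i, ∑ j, |y i j| := single_le_sum (f := fun i => ∑ j, |y i j|)
          (fun i _ => sum_nonneg fun j _ => abs_nonneg _) (mem_univ i)
  set C : ℝ := Fintype.card V * W with hC
  have hn : (0 : ℝ) ≤ Fintype.card V := by positivity
  have hC0 : 0 ≤ C := mul_nonneg hn hW0
  have hcst : (fun _ : V => W) ∈ Feas G y := by
    intro i j _
    have h1 := (abs_le.1 (hW i j)).1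
    simp only
    linarith
  have hcs : ∑ _i : V, W = C := by simp [hC]
  set D : ℝ := 2 * C + 2 * W with hD
  set K : Set (V → ℝ) := Feas G y ∩ {r | ∑ i, r i ≤ C} with hK
  have hKc : IsCompact K := by
    have h1 : IsClosed K := (feas_closed G y).inter
      (isClosed_le (continuous_finsetSum _ fun i _ => continuous_apply i) continuous_const)
    have h2 : K ⊆ Set.pi Set.univ fun _ : V => Set.Icc (-D) (C + Fintype.card V * D) := by
      intro r hr i _
      have h3 : ∀ j, -D ≤ r j := fun j =>
        feas_lower G hV hdeg y W C hW0 hC0 (fun i j => (abs_le.1 (hW i j)).2) r hr.1 hr.2 j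
      refine ⟨h3 i, ?_⟩
      have h4 : ∑ j, (r j + D) ≤ C + Fintype.card V * D := by
        rw [sum_add_distrib]
        have h5 : ∑ _j : V, D = Fintype.card V * D := by simp
        rw [h5]
        have h6 := hr.2
        simp only [Set.mem_ofPred_eq] at h6
        linarith
      have h7 : r i + D ≤ ∑ j, (r j + D) := single_le_sum (f := fun j => r j + D)
        (fun j _ => by linarith [h3 j]) (mem_univ i)
      have h8 : 0 ≤ D := by positivity
      linarith
    exact (isCompact_univ_pi fun _ => isCompact_Icc).of_isClosed_subset h1 h2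
  obtain ⟨r, hr, hmin⟩ := hKc.exists_isMinOn ⟨fun _ => W, hcst, hcs.le⟩
    (f := fun r : V → ℝ => ∑ i, r i)
    (continuous_finsetSum _ fun i _ => continuous_apply i).continuousOn
  refine ⟨r, hr.1, fun r' hr' => ?_⟩
  by_cases h : ∑ i, r' i ≤ C
  · exact hmin ⟨hr', h⟩
  · push Not at h
    exact hr.2.trans h.le

/-- **a fractional perfect matching with a complementary dual solution** -/
theorem exists_matching (hdeg : ∀ i, 3 * Fintype.card V ≤ 4 * G.degree i) (y : V → V → ℝ)
    (hs : ∀ i j, y i j = y j i) :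
    ∃ (r : V → ℝ) (x : V → V → ℝ), (∀ i j, G.Adj i j → 0 ≤ y i j + r i + r j) ∧
      (∀ i j, 0 ≤ x i j) ∧ (∀ i j, x i j = x j i) ∧ (∀ i, ∑ j, x i j = 1) ∧
      ∀ i j, x i j ≠ 0 → G.Adj i j ∧ y i j + r i + r j = 0 := by
  classical
  obtain ⟨r, hr, hmin⟩ := exists_min G hdeg y
  let A : V × V → (V → ℝ) →ₗ[ℝ] ℝ := fun p =>
    if G.Adj p.1 p.2 ∧ y p.1 p.2 + r p.1 + r p.2 = 0 then
      (LinearMap.proj p.1 : (V → ℝ) →ₗ[ℝ] ℝ) + (LinearMap.proj p.2 : (V → ℝ) →ₗ[ℝ] ℝ) else 0
  let l : (V → ℝ) →ₗ[ℝ] ℝ := ∑ i, (LinearMap.proj i : (V → ℝ) →ₗ[ℝ] ℝ)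
  have hl : ∀ d, l d = ∑ i, d i := fun d => by simp [l]
  have hA : ∀ p d, A p d = if G.Adj p.1 p.2 ∧ y p.1 p.2 + r p.1 + r p.2 = 0 then
      d p.1 + d p.2 else 0 := by
    intro p d
    simp only [A]
    split_ifs <;> simp
  obtain ⟨c, hc, hcl⟩ := farkas_fintype A l (by
    intro d hd
    rw [hl]
    by_contra hneg
    push Not at hneg
    have h1 : ∀ p : V × V, ∀ᶠ ε : ℝ in nhdsWithin 0 (Set.Ioi 0), G.Adj p.1 p.2 →
        0 ≤ y p.1 p.2 + (r p.1 + ε * d p.1) + (r p.2 + ε * d p.2) := by
      intro p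
      by_cases hp : G.Adj p.1 p.2
      · rcases (hr p.1 p.2 hp).eq_or_lt with h2 | h2
        · filter_upwards [self_mem_nhdsWithin] with ε hε _
          have h3 := hd p
          rw [hA, if_pos ⟨hp, h2.symm⟩] at h3
          have h4 : 0 ≤ ε * (d p.1 + d p.2) := mul_nonneg (le_of_lt hε) h3
          linarith
        · have h3 : Filter.Tendsto (fun ε : ℝ => y p.1 p.2 + (r p.1 + ε * d p.1) +
              (r p.2 + ε * d p.2)) (nhds 0) (nhds (y p.1 p.2 + (r p.1 + 0 * d p.1) +
              (r p.2 + 0 * d p.2))) := by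
            apply Continuous.tendsto
            fun_prop
          have h4 : (0 : ℝ) < y p.1 p.2 + (r p.1 + 0 * d p.1) + (r p.2 + 0 * d p.2) := by
            simpa using h2
          filter_upwards [nhdsWithin_le_nhds (h3.eventually (lt_mem_nhds h4))] with ε hε _
          exact hε.le
      · exact Filter.Eventually.of_forall fun ε h => absurd h hp
    have h2 := (Filter.eventually_all.2 h1).and (self_mem_nhdsWithin (a := (0 : ℝ)) (s := Set.Ioi 0))
    obtain ⟨ε, hε, hε0⟩ := h2.exists
    have h3 := hmin (fun i => r i + ε * d i) fun i j hij => hε (i, j) hij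
    rw [sum_add_distrib, ← mul_sum] at h3
    have h4 : ε * ∑ i, d i < 0 := mul_neg_of_pos_of_neg hε0 hneg
    linarith)
  set t : V → V → Prop := fun i j => G.Adj i j ∧ y i j + r i + r j = 0 with ht
  have hts : ∀ i j, t i j ↔ t j i := by
    intro i j
    simp only [ht]
    rw [G.adj_comm i j, hs i j]
    constructor
    · rintro ⟨h1, h2⟩
      exact ⟨h1, by linarith⟩
    · rintro ⟨h1, h2⟩
      exact ⟨h1, by linarith⟩
  refine ⟨r, fun i j => if t i j then c (i, j) + c (j, i) else 0, hr, ?_, ?_, ?_, ?_⟩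
  · intro i j
    simp only
    split_ifs
    · exact add_nonneg (hc _) (hc _)
    · exact le_rfl
  · intro i j
    simp only
    by_cases h : t i j
    · rw [if_pos h, if_pos ((hts i j).1 h), add_comm]
    · rw [if_neg h, if_neg fun h2 => h ((hts i j).2 h2)]
  · intro i
    have h1 := hcl (Pi.single i 1)
    rw [hl, sum_pi_single'] at h1
    simp only [mem_univ, if_true] at h1
    rw [h1]
    rw [Fintype.sum_prod_type]
    have h2 : ∀ a b : V, c (a, b) * A (a, b) (Pi.single i 1) =
        (if a = i then (if t a b then c (a, b) else 0) else 0) +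
        (if b = i then (if t a b then c (a, b) else 0) else 0) := by
      intro a b
      rw [hA]
      by_cases h3 : t a b
      · have h4 : G.Adj a b ∧ y a b + r a + r b = 0 := h3
        simp only [h4, h3, and_self, if_true, Pi.single_apply]
        by_cases ha : a = i <;> by_cases hb : b = i <;> simp [ha, hb] <;> ring
      · have h4 : ¬(G.Adj a b ∧ y a b + r a + r b = 0) := h3
        simp only [h4, h3, if_false, mul_zero, ite_self, add_zero]
    simp only [h2, sum_add_distrib]
    have h5 : ∑ a : V, ∑ b : V, (if a = i then (if t a b then c (a, b) else 0) else 0) =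
        ∑ b : V, if t i b then c (i, b) else 0 := by
      rw [sum_eq_single i]
      · simp
      · intro a _ ha
        simp [ha]
      · intro h
        exact absurd (mem_univ i) h
    have h6 : ∑ a : V, ∑ b : V, (if b = i then (if t a b then c (a, b) else 0) else 0) =
        ∑ a : V, if t a i then c (a, i) else 0 := by
      refine sum_congr rfl fun a _ => ?_
      simp
    rw [h5, h6, ← sum_add_distrib]
    refine sum_congr rfl fun b _ => ?_
    by_cases h7 : t i b
    · rw [if_pos h7, if_pos h7, if_pos ((hts i b).1 h7)]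
    · rw [if_neg h7, if_neg h7, if_neg fun h8 => h7 ((hts i b).2 h8), add_zero]
  · intro i j h
    simp only at h
    by_contra h2
    exact h (if_neg h2)

omit [Fintype V] in
theorem sum_triple (i j k : V) (hij : i ≠ j) (hik : i ≠ k) (hjk : j ≠ k) (f : V → ℝ) :
    ∑ u ∈ ({i, j, k} : Finset V), f u = f i + f j + f k := by
  have h1 : i ∉ ({j, k} : Finset V) := by
    intro h
    rcases mem_insert.1 h with h | h
    · exact hij h
    · exact hik (mem_singleton.1 h)
  have h2 : j ∉ ({k} : Finset V) := fun h => hjk (mem_singleton.1 h)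
  rw [sum_insert h1, sum_insert h2, sum_singleton]
  ring

/-- the total of a weighting that is nonnegative on every triangle -/
theorem total_nonneg (hdeg : ∀ i, 3 * Fintype.card V ≤ 4 * G.degree i) (y : V → V → ℝ)
    (hs : ∀ i j, y i j = y j i)
    (ht : ∀ i j k, G.Adj i j → G.Adj j k → G.Adj i k → 0 ≤ y i j + y j k + y i k) :
    0 ≤ ∑ i : V, ∑ j : V, if G.Adj i j then y i j else 0 := by
  obtain ⟨r, x, hz, hx0, hxs, hx1, hxa⟩ := exists_matching G hdeg y hs
  exact energy_nonneg G hdeg y r x hs ht hz hx0 hxs hx1 hxa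

/-- **the theorem**: minimum degree at least `3n/4` forces a fractional triangle decomposition -/
theorem exists_decomposition (hdeg : ∀ i, 3 * Fintype.card V ≤ 4 * G.degree i) :
    ∃ ω : Finset V → ℝ, (∀ T ∈ G.cliqueFinset 3, 0 ≤ ω T ∧ ω T ≤ 1) ∧
      ∀ u v, G.Adj u v → ∑ T ∈ (G.cliqueFinset 3).filter (fun T => u ∈ T ∧ v ∈ T), ω T = 1 := by
  classical
  -- the functionals
  let A : {T // T ∈ G.cliqueFinset 3} → (Sym2 V → ℝ) →ₗ[ℝ] ℝ := fun T =>
    { toFun := fun y => ∑ u ∈ T.1, ∑ v ∈ T.1, if G.Adj u v then y s(u, v) else 0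
      map_add' := fun y y' => by
        simp only [← sum_add_distrib, Pi.add_apply]
        refine sum_congr rfl fun u _ => sum_congr rfl fun v _ => ?_
        split_ifs <;> simp
      map_smul' := fun a y => by
        simp only [mul_sum, Pi.smul_apply, smul_eq_mul, RingHom.id_apply]
        refine sum_congr rfl fun u _ => sum_congr rfl fun v _ => ?_
        split_ifs <;> simp }
  let l : (Sym2 V → ℝ) →ₗ[ℝ] ℝ :=
    { toFun := fun y => ∑ u : V, ∑ v : V, if G.Adj u v then y s(u, v) else 0
      map_add' := fun y y' => by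
        simp only [← sum_add_distrib, Pi.add_apply]
        refine sum_congr rfl fun u _ => sum_congr rfl fun v _ => ?_
        split_ifs <;> simp
      map_smul' := fun a y => by
        simp only [mul_sum, Pi.smul_apply, smul_eq_mul, RingHom.id_apply]
        refine sum_congr rfl fun u _ => sum_congr rfl fun v _ => ?_
        split_ifs <;> simp }
  obtain ⟨c, hc, hcl⟩ := farkas_fintype A l (by
    intro y hy
    refine total_nonneg G hdeg (fun i j => y s(i, j)) (fun i j => by simp only [Sym2.eq_swap]) ?_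
    intro i j k hij hjk hik
    have h1 : ({i, j, k} : Finset V) ∈ G.cliqueFinset 3 := by
      rw [SimpleGraph.mem_cliqueFinset_iff, SimpleGraph.is3Clique_triple_iff]
      exact ⟨hij, hik, hjk⟩
    have h2 := hy ⟨_, h1⟩
    have hij' : i ≠ j := hij.ne
    have hik' : i ≠ k := hik.ne
    have hjk' : j ≠ k := hjk.ne
    simp only [A, LinearMap.coe_mk, AddHom.coe_mk] at h2
    have h3 : ∀ f : V → ℝ, ∑ u ∈ ({i, j, k} : Finset V), f u = f i + f j + f k := fun f =>
      sum_triple i j k hij' hik' hjk' f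
    simp only [h3] at h2
    simp only [SimpleGraph.irrefl, if_false, hij, hjk, hik, hij.symm, hjk.symm, hik.symm, if_true]
      at h2
    rw [Sym2.eq_swap (a := j) (b := i), Sym2.eq_swap (a := k) (b := i),
      Sym2.eq_swap (a := k) (b := j)] at h2
    linarith)
  set ω : Finset V → ℝ := fun T => if h : T ∈ G.cliqueFinset 3 then c ⟨T, h⟩ else 0 with hω
  have hω0 : ∀ T, 0 ≤ ω T := by
    intro T
    simp only [hω]
    split_ifs
    · exact hc _
    · exact le_rfl
  have hsum : ∀ u v, G.Adj u v →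
      ∑ T ∈ (G.cliqueFinset 3).filter (fun T => u ∈ T ∧ v ∈ T), ω T = 1 := by
    intro u v huv
    have h1 := hcl (Pi.single s(u, v) 1)
    have hne : u ≠ v := huv.ne
    have h2 : l (Pi.single s(u, v) 1) = 2 := by
      simp only [l, LinearMap.coe_mk, AddHom.coe_mk]
      have h3 : ∀ a b : V, (if G.Adj a b then (Pi.single s(u, v) (1 : ℝ) : Sym2 V → ℝ) s(a, b) else 0) =
          (if a = u then (if b = v then (1 : ℝ) else 0) else 0) +
          (if a = v then (if b = u then (1 : ℝ) else 0) else 0) := by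
        intro a b
        by_cases h4 : s(a, b) = s(u, v)
        · rcases Sym2.eq_iff.1 h4 with ⟨rfl, rfl⟩ | ⟨rfl, rfl⟩
          · simp [huv, hne, hne.symm]
          · simp [huv.symm, hne, hne.symm, Sym2.eq_swap]
        · have h5 : ¬(a = u ∧ b = v) := fun h => h4 (by rw [h.1, h.2])
          have h6 : ¬(a = v ∧ b = u) := fun h => h4 (by rw [h.1, h.2, Sym2.eq_swap])
          rw [Pi.single_eq_of_ne h4, ite_self]
          by_cases ha : a = u
          · by_cases ha2 : a = v
            · exact absurd (ha.symm.trans ha2) hne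
            · have hb : b ≠ v := fun hb => h5 ⟨ha, hb⟩
              simp [ha, hb, hne]
          · by_cases ha2 : a = v
            · have hb : b ≠ u := fun hb => h6 ⟨ha2, hb⟩
              simp [ha2, hb, hne.symm]
            · simp [ha, ha2]
      simp only [h3, sum_add_distrib]
      simp
      norm_num
    have h3 : ∀ T : {T // T ∈ G.cliqueFinset 3}, A T (Pi.single s(u, v) 1) =
        if u ∈ T.1 ∧ v ∈ T.1 then 2 else 0 := by
      intro T
      simp only [A, LinearMap.coe_mk, AddHom.coe_mk]
      have h3 : ∀ a b : V, (if G.Adj a b then (Pi.single s(u, v) (1 : ℝ) : Sym2 V → ℝ) s(a, b) else 0) =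
          (if a = u then (if b = v then (1 : ℝ) else 0) else 0) +
          (if a = v then (if b = u then (1 : ℝ) else 0) else 0) := by
        intro a b
        by_cases h4 : s(a, b) = s(u, v)
        · rcases Sym2.eq_iff.1 h4 with ⟨rfl, rfl⟩ | ⟨rfl, rfl⟩
          · simp [huv, hne, hne.symm]
          · simp [huv.symm, hne, hne.symm, Sym2.eq_swap]
        · have h5 : ¬(a = u ∧ b = v) := fun h => h4 (by rw [h.1, h.2])
          have h6 : ¬(a = v ∧ b = u) := fun h => h4 (by rw [h.1, h.2, Sym2.eq_swap])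
          rw [Pi.single_eq_of_ne h4, ite_self]
          by_cases ha : a = u
          · by_cases ha2 : a = v
            · exact absurd (ha.symm.trans ha2) hne
            · have hb : b ≠ v := fun hb => h5 ⟨ha, hb⟩
              simp [ha, hb, hne]
          · by_cases ha2 : a = v
            · have hb : b ≠ u := fun hb => h6 ⟨ha2, hb⟩
              simp [ha2, hb, hne.symm]
            · simp [ha, ha2]
      simp only [h3, sum_add_distrib]
      simp only [sum_ite_eq', sum_ite_irrel, sum_const_zero]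
      by_cases hu : u ∈ T.1 <;> by_cases hv : v ∈ T.1 <;> simp [hu, hv]
      norm_num
    rw [h2] at h1
    simp only [h3] at h1
    have h4 : ∑ T : {T // T ∈ G.cliqueFinset 3}, c T * (if u ∈ T.1 ∧ v ∈ T.1 then (2 : ℝ) else 0) =
        2 * ∑ T ∈ (G.cliqueFinset 3).filter (fun T => u ∈ T ∧ v ∈ T), ω T := by
      rw [sum_filter, mul_sum, ← sum_coe_sort (G.cliqueFinset 3)]
      refine sum_congr rfl fun T _ => ?_
      have h5 : ω T.1 = c T := by
        simp only [hω]
        rw [dif_pos T.2]
      split_ifs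
      · rw [h5, mul_comm]
      · rw [mul_zero, mul_zero]
    rw [h4] at h1
    linarith
  refine ⟨ω, fun T hT => ⟨hω0 T, ?_⟩, hsum⟩
  -- a triangle has an edge
  rw [SimpleGraph.mem_cliqueFinset_iff, SimpleGraph.is3Clique_iff] at hT
  obtain ⟨a, b, d, hab, had, hbd, rfl⟩ := hT
  rw [← hsum a b hab]
  refine single_le_sum (f := ω) (fun T _ => hω0 T) ?_
  rw [mem_filter, SimpleGraph.mem_cliqueFinset_iff, SimpleGraph.is3Clique_triple_iff]
  exact ⟨⟨hab, had, hbd⟩, by simp, by simp⟩

end FNW
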