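import Pool.Agent.Lib.MP_cb9986_co.FNW.Dual

/-!
# The fractional triangle decomposition threshold: the lower bound

The graph `low q`: four classes of size `q`, everything between the two sides, and inside a side
everything between its two classes except a perfect matching.
-/

set_option autoImplicit false

namespace FNW

open Finset

/-- two sides, two classes in each side, `q` vertices in each class -/
def low (q : ℕ) : SimpleGraph (Bool × Bool × Fin q) where
  Adj u v := u.1 ≠ v.1 ∨ (u.1 = v.1 ∧ u.2.1 ≠ v.2.1 ∧ u.2.2 ≠ v.2.2)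
  symm := ⟨by
    rintro u v (h | ⟨h1, h2, h3⟩)
    · exact Or.inl h.symm
    · exact Or.inr ⟨h1.symm, h2.symm, h3.symm⟩⟩
  loopless := ⟨by
    rintro u (h | ⟨h1, h2, h3⟩)
    · exact h rfl
    · exact h2 rfl⟩

theorem low_adj (q : ℕ) (u v : Bool × Bool × Fin q) :
    (low q).Adj u v ↔ u.1 ≠ v.1 ∨ (u.1 = v.1 ∧ u.2.1 ≠ v.2.1 ∧ u.2.2 ≠ v.2.2) := Iff.rfl

open Classical in
/-- a sum over the neighbours of a vertex whose terms depend only on the sides -/
theorem low_sum (q : ℕ) (u : Bool × Bool × Fin q) (α β : ℝ) :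
    ∑ v, (if (low q).Adj u v then (if u.1 = v.1 then α else β) else 0) =
      (q - 1) * α + 2 * q * β := by
  obtain ⟨s, h, i⟩ := u
  have h1 : ∑ j : Fin q, (if i = j then (0 : ℝ) else α) = (q - 1) * α := by
    have h2 : ∀ j : Fin q, (if i = j then (0 : ℝ) else α) = α - (if i = j then α else 0) := by
      intro j
      split_ifs <;> ring
    simp only [h2, sum_sub_distrib, sum_const, card_univ, Fintype.card_fin, nsmul_eq_mul,
      sum_ite_eq, mem_univ, if_true]
    ring
  simp only [low_adj, Fintype.sum_prod_type, Fintype.sum_bool]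
  cases s <;> cases h <;> simp [h1] <;> ring

/-- **no fractional triangle decomposition** -/
theorem low_none (q : ℕ) (hq : 1 ≤ q) (ω : Finset (Bool × Bool × Fin q) → ℝ)
    (h : ∀ u v, (low q).Adj u v → (open Classical in
      ∑ T : Finset (Bool × Bool × Fin q) with (low q).IsNClique 3 T ∧ u ∈ T ∧ v ∈ T, ω T) = 1) :
    False := by
  classical
  set y : (Bool × Bool × Fin q) → (Bool × Bool × Fin q) → ℝ := fun u v =>
    if (low q).Adj u v then (if u.1 = v.1 then (2 : ℝ) else -1) else 0 with hy
  -- the total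
  have h1 : ∑ u, ∑ v, y u v = -8 * q := by
    simp only [hy, low_sum]
    simp only [sum_const, card_univ, Fintype.card_prod, Fintype.card_bool, Fintype.card_fin,
      nsmul_eq_mul]
    push_cast
    ring
  -- the triangles
  have h2 : ∀ T : Finset (Bool × Bool × Fin q), (low q).IsNClique 3 T →
      ∑ u ∈ T, ∑ v ∈ T, y u v = 0 := by
    intro T hT
    rw [SimpleGraph.is3Clique_iff] at hT
    obtain ⟨a, b, c, hab, hac, hbc, rfl⟩ := hT
    simp only [sum_triple a b c hab.ne hac.ne hbc.ne]
    have e0 : ∀ u, y u u = 0 := fun u => by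
      simp only [hy]
      rw [if_neg ((low q).irrefl)]
    have e1 : y a b = if a.1 = b.1 then (2 : ℝ) else -1 := by
      simp only [hy]
      rw [if_pos hab]
    have e2 : y a c = if a.1 = c.1 then (2 : ℝ) else -1 := by
      simp only [hy]
      rw [if_pos hac]
    have e3 : y b c = if b.1 = c.1 then (2 : ℝ) else -1 := by
      simp only [hy]
      rw [if_pos hbc]
    have e4 : y b a = if a.1 = b.1 then (2 : ℝ) else -1 := by
      simp only [hy]
      rw [if_pos hab.symm]
      by_cases e : a.1 = b.1
      · rw [if_pos e, if_pos e.symm]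
      · rw [if_neg e, if_neg fun e' => e e'.symm]
    have e5 : y c a = if a.1 = c.1 then (2 : ℝ) else -1 := by
      simp only [hy]
      rw [if_pos hac.symm]
      by_cases e : a.1 = c.1
      · rw [if_pos e, if_pos e.symm]
      · rw [if_neg e, if_neg fun e' => e e'.symm]
    have e6 : y c b = if b.1 = c.1 then (2 : ℝ) else -1 := by
      simp only [hy]
      rw [if_pos hbc.symm]
      by_cases e : b.1 = c.1
      · rw [if_pos e, if_pos e.symm]
      · rw [if_neg e, if_neg fun e' => e e'.symm]
    rw [e0, e0, e0, e1, e2, e3, e4, e5, e6]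
    rw [low_adj] at hab hac hbc
    obtain ⟨a1, a2, a3⟩ := a
    obtain ⟨b1, b2, b3⟩ := b
    obtain ⟨c1, c2, c3⟩ := c
    revert hab hac hbc
    cases a1 <;> cases b1 <;> cases c1 <;> cases a2 <;> cases b2 <;> cases c2 <;> simp <;> norm_num
  -- double counting
  have h3 : ∑ u, ∑ v, y u v = ∑ u, ∑ v, ∑ T : Finset (Bool × Bool × Fin q),
      if (low q).IsNClique 3 T ∧ u ∈ T ∧ v ∈ T then y u v * ω T else 0 := by
    refine sum_congr rfl fun u _ => sum_congr rfl fun v _ => ?_
    by_cases e : (low q).Adj u v
    · rw [← sum_filter, ← mul_sum, h u v e, mul_one]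
    · have e1 : y u v = 0 := if_neg e
      rw [e1]
      simp
  have h4 : ∑ u, ∑ v, ∑ T : Finset (Bool × Bool × Fin q),
      (if (low q).IsNClique 3 T ∧ u ∈ T ∧ v ∈ T then y u v * ω T else 0) =
      ∑ T : Finset (Bool × Bool × Fin q), ∑ u, ∑ v,
      (if (low q).IsNClique 3 T ∧ u ∈ T ∧ v ∈ T then y u v * ω T else 0) := by
    have e1 : ∀ u, ∑ v, ∑ T : Finset (Bool × Bool × Fin q),
        (if (low q).IsNClique 3 T ∧ u ∈ T ∧ v ∈ T then y u v * ω T else 0) =
        ∑ T : Finset (Bool × Bool × Fin q), ∑ v,
        (if (low q).IsNClique 3 T ∧ u ∈ T ∧ v ∈ T then y u v * ω T else 0) := fun u => sum_comm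
    rw [sum_congr rfl fun u _ => e1 u, sum_comm]
  have h5 : ∀ T : Finset (Bool × Bool × Fin q), ∑ u, ∑ v,
      (if (low q).IsNClique 3 T ∧ u ∈ T ∧ v ∈ T then y u v * ω T else 0) = 0 := by
    intro T
    by_cases hT : (low q).IsNClique 3 T
    · have e1 : ∀ u v, (if (low q).IsNClique 3 T ∧ u ∈ T ∧ v ∈ T then y u v * ω T else 0) =
          if u ∈ T then (if v ∈ T then y u v * ω T else 0) else 0 := by
        intro u v
        by_cases hu : u ∈ T <;> by_cases hv : v ∈ T <;> simp [hT, hu, hv]
      simp only [e1]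
      have e2 : ∀ u, ∑ v, (if u ∈ T then (if v ∈ T then y u v * ω T else 0) else 0) =
          if u ∈ T then ∑ v ∈ T, y u v * ω T else 0 := by
        intro u
        by_cases hu : u ∈ T
        · simp only [hu, if_true]
          rw [← sum_filter]
          refine sum_congr ?_ fun _ _ => rfl
          ext v
          simp
        · simp [hu]
      simp only [e2]
      rw [← sum_filter]
      have e3 : univ.filter (fun u => u ∈ T) = T := by
        ext v
        simp
      rw [e3]
      simp only [← sum_mul]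
      rw [h2 T hT, zero_mul]
    · simp [hT]
  rw [h3, h4, sum_congr rfl fun T _ => h5 T, sum_const_zero] at h1
  have h6 : (1 : ℝ) ≤ q := by exact_mod_cast hq
  linarith

end FNW
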