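import Pool.Agent.Lib.MP_cb9986_co.FNW.Quarter
import Pool.Agent.Lib.MP_cb9986_co.RatFam
import Pool.Agent.Lib.MP_cb9986_co.Big
import Pool.Agent.Lib.MP_cb9986_co.Infl

/-!
Partial Latin squares with at most `n / 4` entries per line: fractional completions, and `m`-fold
completions for the multiples `m` of a number that depends on `n` only.
-/

set_option autoImplicit false
open Finset

namespace Pool.Agent.Lib.MP_cb9986_co

variable {n : ℕ}

theorem frac_quarter_all {L : Fin n → Fin n → Option (Fin n)} (hL : IsPLS L) {k : ℕ}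
    (hk : UsedAtMost k L) (h4 : 4 * k ≤ n) :
    ∃ x : Fin n → Fin n → Fin n → ℚ, IsFracCompletion L x := by
  have H := hyp_of_pls hL hk
  have h4' : 4 * (k : ℝ) ≤ n := by exact_mod_cast h4
  obtain ⟨w, hw⟩ := quarter_decomp H h4'
  obtain ⟨y, y0, y1, y2, y3, y4⟩ := rat_family (ι := Fin n × Fin n × Fin n) n
    (fun p => w p.1 p.2.1 p.2.2) (fun p => hw.nonneg _ _ _)
  obtain ⟨a, b, c⟩ := glue hL (1 : ℚ) (fun r c s => y (r, c, s))
    (fun r c s h => y2 (r, c, s) (hw.dead r c s h))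
    (fun r c h => y4 (fun s => (r, c, s)) (hw.s0 r c h))
    (fun c s h => y4 (fun r => (r, c, s)) (hw.s1 c s h))
    (fun s r h => y4 (fun c => (r, c, s)) (hw.s2 s r h))
  refine ⟨fun r c s => if L r c = some s then 1 else y (r, c, s), ?_, a, b, c, ?_⟩
  · intro r c s
    show (0 : ℚ) ≤ if L r c = some s then 1 else y (r, c, s)
    split_ifs
    · norm_num
    · exact y0 (r, c, s)
  · intro r c s h
    show (if L r c = some s then (1 : ℚ) else y (r, c, s)) = 1
    rw [if_pos h]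

/-- one denominator for all partial Latin squares of order `n` -/
theorem den_quarter_all (n : ℕ) :
    ∃ m₀ : ℕ, 0 < m₀ ∧ ∀ (L : Fin n → Fin n → Option (Fin n)), IsPLS L → UsedAtMost (n / 4) L →
      ∀ m : ℕ, m₀ ∣ m → ∃ A : Fin n → Fin n → Fin n → ℕ,
        (∀ r c, ∑ s, A r c s = m) ∧ (∀ r s, ∑ c, A r c s = m) ∧ (∀ c s, ∑ r, A r c s = m) ∧
        ∀ r c s, L r c = some s → A r c s = m := by
  classical
  have h : ∀ L : Fin n → Fin n → Option (Fin n), ∃ m₀ : ℕ, 0 < m₀ ∧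
      (IsPLS L → UsedAtMost (n / 4) L → ∀ m : ℕ, m₀ ∣ m → ∃ A : Fin n → Fin n → Fin n → ℕ,
        (∀ r c, ∑ s, A r c s = m) ∧ (∀ r s, ∑ c, A r c s = m) ∧ (∀ c s, ∑ r, A r c s = m) ∧
        ∀ r c s, L r c = some s → A r c s = m) := by
    intro L
    by_cases hL : IsPLS L ∧ UsedAtMost (n / 4) L
    · obtain ⟨x, hx⟩ := frac_quarter_all hL.1 hL.2 (Nat.mul_div_le n 4)
      obtain ⟨m₀, h0, h1⟩ := exists_den hx
      exact ⟨m₀, h0, fun _ _ => h1⟩
    · exact ⟨1, one_pos, fun h1 h2 => absurd ⟨h1, h2⟩ hL⟩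
  choose f f0 f1 using h
  refine ⟨∏ L, f L, Finset.prod_pos fun L _ => f0 L, fun L h1 h2 m hm => ?_⟩
  exact f1 L h1 h2 m (dvd_trans (Finset.dvd_prod_of_mem f (mem_univ L)) hm)

end Pool.Agent.Lib.MP_cb9986_co
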