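import Mathlib

/-!
# The fractional triangle decomposition threshold: prices and the inequality for two matching edges

Two edges `i i'` and `j j'` of a fractional perfect matching carry the values `a, a'` and `b, b'` of the
dual solution. Each of the four cross pairs is live or missing. `quad` bounds the slacks of the live cross
pairs from below, at a price `beta` for each missing one.
-/

set_option autoImplicit false

namespace FNW

/-- the price of a missing pair at the end with value `a`, when its partner has the value `b` -/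
noncomputable def beta (a b : ℝ) : ℝ :=
  if 0 ≤ a + b / 2 ∧ 0 ≤ b + a / 2 then a + b / 2 else if b ≤ a then (a - b) / 2 else 0

/-- the three shapes of the prices of a matching edge -/
theorem beta_cases (a b : ℝ) :
    (0 ≤ a + b / 2 ∧ 0 ≤ b + a / 2 ∧ beta a b = a + b / 2 ∧ beta b a = b + a / 2) ∨
    (b ≤ a ∧ b + a / 2 ≤ 0 ∧ beta a b = (a - b) / 2 ∧ beta b a = 0) ∨
    (a ≤ b ∧ a + b / 2 ≤ 0 ∧ beta a b = 0 ∧ beta b a = (b - a) / 2) := by
  unfold beta
  by_cases h : 0 ≤ a + b / 2 ∧ 0 ≤ b + a / 2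
  · left
    rw [if_pos h, if_pos ⟨h.2, h.1⟩]
    exact ⟨h.1, h.2, rfl, rfl⟩
  · have h' : ¬(0 ≤ b + a / 2 ∧ 0 ≤ a + b / 2) := fun h2 => h ⟨h2.2, h2.1⟩
    right
    rw [if_neg h, if_neg h']
    rcases lt_trichotomy a b with hab | hab | hab
    · right
      rw [if_neg (not_le.2 hab), if_pos hab.le]
      refine ⟨hab.le, ?_, rfl, rfl⟩
      by_contra h3
      push Not at h3
      exact h ⟨h3.le, by linarith⟩
    · left
      subst hab
      rw [if_pos le_rfl]
      refine ⟨le_rfl, ?_, rfl, by ring⟩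
      by_contra h3
      push Not at h3
      exact h ⟨h3.le, h3.le⟩
    · left
      rw [if_pos hab.le, if_neg (not_le.2 hab)]
      refine ⟨hab.le, ?_, rfl, rfl⟩
      by_contra h3
      push Not at h3
      exact h ⟨by linarith, h3.le⟩

theorem beta_nonneg (a b : ℝ) : 0 ≤ beta a b := by
  rcases beta_cases a b with ⟨h1, h2, h3, h4⟩ | ⟨h1, h2, h3, h4⟩ | ⟨h1, h2, h3, h4⟩ <;> rw [h3] <;>
    linarith

theorem le_two_beta (a b : ℝ) : a ≤ 2 * beta a b := by
  rcases beta_cases a b with ⟨h1, h2, h3, h4⟩ | ⟨h1, h2, h3, h4⟩ | ⟨h1, h2, h3, h4⟩ <;> rw [h3] <;>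
    linarith

/-- **the inequality for two matching edges** -/
theorem quad (a a' b b' z1 z2 z3 z4 : ℝ) (l1 l2 l3 l4 : Prop)
    [Decidable l1] [Decidable l2] [Decidable l3] [Decidable l4]
    (h1 : l1 → 0 ≤ z1) (h2 : l2 → 0 ≤ z2) (h3 : l3 → 0 ≤ z3) (h4 : l4 → 0 ≤ z4)
    (t1 : l1 → l2 → 2 * (a + b + b') ≤ z1 + z2)
    (t2 : l3 → l4 → 2 * (a' + b + b') ≤ z3 + z4)
    (t3 : l1 → l3 → 2 * (a + a' + b) ≤ z1 + z3)
    (t4 : l2 → l4 → 2 * (a + a' + b') ≤ z2 + z4) :
    3 / 2 * (a + a' + b + b') + (beta a a' + beta a' a + beta b b' + beta b' b) ≤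
      (if l1 then z1 else 2 * (beta a a' + beta b b')) +
      (if l2 then z2 else 2 * (beta a a' + beta b' b)) +
      (if l3 then z3 else 2 * (beta a' a + beta b b')) +
      (if l4 then z4 else 2 * (beta a' a + beta b' b)) := by
  by_cases p1 : l1 <;> by_cases p2 : l2 <;> by_cases p3 : l3 <;> by_cases p4 : l4 <;>
  simp only [p1, p2, p3, p4, if_true, if_false, forall_const, IsEmpty.forall_iff] at * <;>
  rcases beta_cases a a' with ⟨u1, u2, u3, u4⟩ | ⟨u1, u2, u3, u4⟩ | ⟨u1, u2, u3, u4⟩ <;>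
  rcases beta_cases b b' with ⟨v1, v2, v3, v4⟩ | ⟨v1, v2, v3, v4⟩ | ⟨v1, v2, v3, v4⟩ <;>
  rw [u3, u4, v3, v4] <;> linarith

end FNW
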