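import Pool.Agent.Lib.MP_cb9986_co.FNW.DiDecomp
import Pool.Agent.Lib.MP_cb9986_co.Gen

/-!
# Fractional triangle decompositions of tripartite graphs: the threshold `n / 4`

The digraph theorem is applied to the vertices `(i, a)`, `i` the class, with the arcs from class `i` to
class `i + 1`.
-/

set_option autoImplicit false

namespace Pool.Agent.Lib.MP_cb9986_co

open Finset DiTri

variable {n : ℕ}

namespace Quarter

/-- the arcs -/
def Arc (g : Fin 3 → W n) (u v : Fin 3 × Fin n) : Prop := v.1 = u.1 + 1 ∧ g u.1 u.2 v.2 = 1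

/-- the triangles -/
def Good (g : Fin 3 → W n) (u v w : Fin 3 × Fin n) : Prop := Arc g u v ∧ Arc g v w ∧ Arc g w u

/-- the hypotheses on the three bipartite graphs, in cyclic form -/
structure CHyp (k : ℝ) (g : Fin 3 → W n) : Prop where
  z : ∀ i x y, g i x y = 0 ∨ g i x y = 1
  b : ∀ i x, ∑ z, g (i + 2) z x = ∑ y, g i x y
  d : ∀ i x, (n : ℝ) - k ≤ ∑ y, g i x y

theorem chyp {g0 g1 g2 : W n} {k : ℝ} (H : Hyp k g0 g1 g2) : CHyp k ![g0, g1, g2] := by
  refine ⟨?_, ?_, ?_⟩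
  · intro i
    fin_cases i
    · exact H.z0
    · exact H.z1
    · exact H.z2
  · intro i
    fin_cases i
    · exact fun x => H.b0 x
    · exact fun x => H.b1 x
    · exact fun x => H.b2 x
  · intro i
    fin_cases i
    · exact H.d0
    · exact H.d1
    · exact H.d2

variable {g : Fin 3 → W n} {k : ℝ}

theorem idx21 (i : Fin 3) : i + 2 + 1 = i := by revert i; decide

theorem idx11 (i : Fin 3) : i + 1 + 1 = i + 2 := by revert i; decide

theorem idx12 (i : Fin 3) : i + 1 + 2 = i := by revert i; decide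

theorem idxne (i l : Fin 3) (h : l ≠ i) : l = i + 1 ∨ l = i + 2 := by revert i l; decide

theorem idx3 (i j : Fin 3) : ∃ l : Fin 3, l ≠ i ∧ l ≠ j := by revert i j; decide

theorem sum_fst (f : Fin 3 × Fin n → ℝ) (j : Fin 3) (h : ∀ i b, i ≠ j → f (i, b) = 0) :
    ∑ v, f v = ∑ b, f (j, b) := by
  rw [Fintype.sum_prod_type]
  refine sum_eq_single j (fun i _ hi => sum_eq_zero fun b _ => h i b hi) fun h => ?_
  exact absurd (mem_univ j) h

open Classical in
theorem deg_eq (H : CHyp k g) (i : Fin 3) (a : Fin n) :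
    deg (Arc g) (i, a) = ∑ b, g i a b := by
  unfold deg
  rw [sum_fst _ (i + 1)]
  · refine sum_congr rfl fun b _ => ?_
    rcases H.z i a b with h | h
    · rw [if_neg, h]
      rintro ⟨-, h2⟩
      simp only at h2
      rw [h] at h2
      exact zero_ne_one h2
    · rw [if_pos ⟨rfl, h⟩, h]
  · intro j b hj
    exact if_neg fun h => hj h.1

open Classical in
theorem indeg_eq (H : CHyp k g) (i : Fin 3) (a : Fin n) :
    (∑ v, if Arc g v (i, a) then (1 : ℝ) else 0) = ∑ c, g (i + 2) c a := by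
  rw [sum_fst _ (i + 2)]
  · refine sum_congr rfl fun b _ => ?_
    rcases H.z (i + 2) b a with h | h
    · rw [if_neg, h]
      rintro ⟨-, h2⟩
      simp only at h2
      rw [h] at h2
      exact zero_ne_one h2
    · rw [if_pos ⟨(idx21 i).symm, h⟩, h]
  · intro j b hj
    refine if_neg fun h => hj ?_
    have h1 : i = j + 1 := h.1
    rw [h1, idx12]

open Classical in
theorem balanced (H : CHyp k g) (v : Fin 3 × Fin n) :
    (∑ b, if Arc g b v then (1 : ℝ) else 0) = deg (Arc g) v := by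
  obtain ⟨i, a⟩ := v
  have h1 := indeg_eq H i a
  have h2 := deg_eq H i a
  rw [H.b i a, ← h2] at h1
  exact h1

/-- the number of neighbours in another class -/
theorem nbr (H : CHyp k g) (i l : Fin 3) (hl : l ≠ i) (a : Fin n) :
    ∃ e : Fin n → ℝ, (∀ c, e c ≤ 1) ∧ (n : ℝ) - k ≤ ∑ c, e c ∧
      ∀ c, 0 < e c → Arc g (i, a) (l, c) ∨ Arc g (l, c) (i, a) := by
  rcases idxne i l hl with rfl | rfl
  · refine ⟨fun c => g i a c, fun c => zo_le (H.z i a c), H.d i a, fun c hc => Or.inl ⟨rfl, ?_⟩⟩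
    rcases H.z i a c with h | h
    · simp only [h] at hc
      exact absurd hc (lt_irrefl _)
    · exact h
  · refine ⟨fun c => g (i + 2) c a, fun c => zo_le (H.z _ _ _), ?_, fun c hc => Or.inr ⟨?_, ?_⟩⟩
    · rw [H.b i a]
      exact H.d i a
    · exact (idx21 i).symm
    · rcases H.z (i + 2) c a with h | h
      · simp only [h] at hc
        exact absurd hc (lt_irrefl _)
      · exact h

theorem conn (H : CHyp k g) (h4 : 4 * k ≤ n) (u v : Fin 3 × Fin n) :
    ∃ w, (Arc g u w ∨ Arc g w u) ∧ (Arc g v w ∨ Arc g w v) := by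
  obtain ⟨i, a⟩ := u
  obtain ⟨j, b⟩ := v
  obtain ⟨l, hl1, hl2⟩ := idx3 i j
  obtain ⟨e, e1, e2, e3⟩ := nbr H i l hl1 a
  obtain ⟨f, f1, f2, f3⟩ := nbr H j l hl2 b
  have hn : (0 : ℝ) < n := by
    have : 0 < n := a.pos
    exact_mod_cast this
  obtain ⟨c, hc⟩ : ∃ c, 1 < e c + f c := by
    by_contra hcon
    push Not at hcon
    have h1 : ∑ c, (e c + f c) ≤ ∑ _c : Fin n, (1 : ℝ) := sum_le_sum fun c _ => hcon c
    rw [sum_add_distrib] at h1
    simp only [sum_const, card_univ, Fintype.card_fin, nsmul_eq_mul, mul_one] at h1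
    linarith
  refine ⟨(l, c), e3 c ?_, f3 c ?_⟩
  · linarith [f1 c]
  · linarith [e1 c]

theorem count (H : CHyp k g) [DecidableRel (Arc g)] [∀ a b c, Decidable (Good g a b c)]
    (u v : Fin 3 × Fin n) (huv : Arc g u v) :
    deg (Arc g) u + deg (Arc g) v - n ≤ cnt (Good g) u v := by
  classical
  obtain ⟨i, a⟩ := u
  obtain ⟨j, b⟩ := v
  have hj : j = i + 1 := huv.1
  subst hj
  have h1 : deg (Arc g) (i, a) = ∑ c, g (i + 2) c a := by
    rw [H.b i a, ← deg_eq H i a]
    congr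
  have h2 : deg (Arc g) (i + 1, b) = ∑ c, g (i + 1) b c := by
    rw [← deg_eq H (i + 1) b]
    congr
  have h3 : cnt (Good g) (i, a) (i + 1, b) =
      ∑ c, if Good g (i, a) (i + 1, b) (i + 2, c) then (1 : ℝ) else 0 := by
    unfold cnt
    rw [sum_fst _ (i + 2)]
    intro l c hl
    refine if_neg fun h => hl ?_
    have h4 : l = i + 1 + 1 := h.2.1.1
    rw [h4, idx11]
  rw [h1, h2, h3]
  have h4 : (n : ℝ) = ∑ _c : Fin n, (1 : ℝ) := by simp
  rw [h4, ← sum_add_distrib, ← sum_sub_distrib]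
  refine sum_le_sum fun c _ => ?_
  have e1 : i + 2 = i + 1 + 1 := (idx11 i).symm
  have e2 : i = i + 2 + 1 := (idx21 i).symm
  rcases H.z (i + 2) c a with h5 | h5
  · rw [h5]
    have h6 := zo_le (H.z (i + 1) b c)
    have h7 : (0 : ℝ) ≤ if Good g (i, a) (i + 1, b) (i + 2, c) then (1 : ℝ) else 0 := by
      split_ifs <;> norm_num
    linarith
  · rcases H.z (i + 1) b c with h6 | h6
    · rw [h5, h6]
      have h7 : (0 : ℝ) ≤ if Good g (i, a) (i + 1, b) (i + 2, c) then (1 : ℝ) else 0 := by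
        split_ifs <;> norm_num
      linarith
    · rw [if_pos ⟨huv, ⟨e1, h6⟩, ⟨e2, h5⟩⟩, h5, h6]
      norm_num

open Classical in
theorem deg_ge (H : CHyp k g) (v : Fin 3 × Fin n) :
    (n : ℝ) - k ≤ deg (Arc g) v := by
  obtain ⟨i, a⟩ := v
  have h1 := H.d i a
  rw [← deg_eq H i a] at h1
  exact h1

theorem good_cyc (a b c : Fin 3 × Fin n) (h : Good g a b c) : Good g b c a := ⟨h.2.1, h.2.2, h.1⟩

/-- from the digraph back to the three graphs -/
theorem back {g0 g1 g2 : W n}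
    (w : Fin 3 × Fin n → Fin 3 × Fin n → Fin 3 × Fin n → ℝ) (h0 : ∀ a b c, 0 ≤ w a b c)
    (h1 : ∀ a b c, w a b c ≠ 0 → Good ![g0, g1, g2] a b c) (h2 : ∀ a b c, w a b c = w b c a)
    (h3 : ∀ a b, Arc ![g0, g1, g2] a b → ∑ c, w a b c = 1) :
    IsDecomp g0 g1 g2 fun x y z => w (0, x) (1, y) (2, z) := by
  refine ⟨fun x y z => h0 _ _ _, ?_, ?_, ?_, ?_⟩
  · intro x y z h
    by_contra hne
    obtain ⟨a1, a2, a3⟩ := h1 _ _ _ hne
    have b1 : g0 x y = 1 := a1.2
    have b2 : g1 y z = 1 := a2.2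
    have b3 : g2 z x = 1 := a3.2
    rcases h with h | h | h
    · rw [b1] at h; exact one_ne_zero h
    · rw [b2] at h; exact one_ne_zero h
    · rw [b3] at h; exact one_ne_zero h
  · intro x y hxy
    have h4 : Arc ![g0, g1, g2] (0, x) (1, y) := ⟨rfl, hxy⟩
    rw [← h3 _ _ h4, sum_fst _ 2]
    intro i b hi
    by_contra hne
    exact hi (h1 _ _ _ hne).2.1.1
  · intro y z hyz
    have h4 : Arc ![g0, g1, g2] (1, y) (2, z) := ⟨rfl, hyz⟩
    rw [← h3 _ _ h4, sum_fst _ 0]
    · exact sum_congr rfl fun x _ => h2 _ _ _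
    · intro i b hi
      by_contra hne
      exact hi (h1 _ _ _ hne).2.1.1
  · intro z x hzx
    have h4 : Arc ![g0, g1, g2] (2, z) (0, x) := ⟨rfl, hzx⟩
    rw [← h3 _ _ h4, sum_fst _ 1]
    · exact sum_congr rfl fun y _ => (h2 _ _ _).trans (h2 _ _ _)
    · intro i b hi
      by_contra hne
      exact hi (h1 _ _ _ hne).2.1.1

end Quarter

open Quarter

/-- **the fractional theorem at `n / 4`** -/
theorem quarter_decomp {g0 g1 g2 : W n} {k : ℝ} (H : Hyp k g0 g1 g2) (h4 : 4 * k ≤ n) :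
    ∃ w, IsDecomp g0 g1 g2 w := by
  classical
  have C := chyp H
  obtain ⟨w, w0, w1, w2, w3⟩ := exists_decomp (Arc ![g0, g1, g2]) (Good ![g0, g1, g2])
    good_cyc (fun a b c h => h.1) (balanced C) (conn C h4) (fun a b hab => by
      have h1 := count C a b hab
      have h2 := deg_ge C a
      have h3 := deg_ge C b
      constructor <;> linarith)
  exact ⟨_, back w w0 w1 w2 w3⟩

/-- **the spread form** -/
theorem quarter_spread {g0 g1 g2 : W n} {k β : ℝ} (H : Hyp k g0 g1 g2) (hβ : 0 < β)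
    (h4 : 4 * k + 3 * β ≤ n) :
    ∃ w, IsDecomp g0 g1 g2 w ∧ ∀ x y z, w x y z ≤ 3 / β := by
  classical
  have C := chyp H
  obtain ⟨w, w0, wb, w1, w2, w3⟩ := exists_spread (Arc ![g0, g1, g2]) (Good ![g0, g1, g2])
    good_cyc (fun a b c h => h.1) (balanced C) (conn C (by linarith)) β hβ (fun a b hab => by
      have h1 := count C a b hab
      have h2 := deg_ge C a
      have h3 := deg_ge C b
      constructor <;> linarith)
  exact ⟨_, back w w0 w1 w2 w3, fun x y z => wb _ _ _⟩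

end Pool.Agent.Lib.MP_cb9986_co
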