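import Pool.Agent.Lib.MP_cb9986_co.FNW.Quad

/-!
# The fractional triangle decomposition threshold: summation

`energy_nonneg` : a weighting of the edges of a graph of minimum degree at least `3n/4` that is nonnegative
on every triangle has nonnegative total, provided that a fractional perfect matching `x` and a dual
solution `r` with complementary slackness are given.
-/

set_option autoImplicit false

namespace FNW

open Finset

variable {V : Type*} [Fintype V] (G : SimpleGraph V) [DecidableRel G.Adj]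

/-- the value of a cross pair `i j`, where `i i'` and `j j'` are matching edges -/
noncomputable def cell (y : V → V → ℝ) (r : V → ℝ) (i i' j j' : V) : ℝ :=
  if G.Adj i j then y i j + r i + r j else 2 * (beta (r i) (r i') + beta (r j) (r j'))

omit [Fintype V] in
/-- the inequality for two matching edges, in the graph -/
theorem quad_graph (y : V → V → ℝ) (r : V → ℝ) (hs : ∀ i j, y i j = y j i)
    (ht : ∀ i j k, G.Adj i j → G.Adj j k → G.Adj i k → 0 ≤ y i j + y j k + y i k)
    (hz : ∀ i j, G.Adj i j → 0 ≤ y i j + r i + r j) (i i' j j' : V)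
    (hi : G.Adj i i') (hj : G.Adj j j') (hi0 : y i i' + r i + r i' = 0)
    (hj0 : y j j' + r j + r j' = 0) :
    3 / 2 * (r i + r i' + r j + r j') + (beta (r i) (r i') + beta (r i') (r i) + beta (r j) (r j') +
      beta (r j') (r j)) ≤
      cell G y r i i' j j' + cell G y r i i' j' j + cell G y r i' i j j' + cell G y r i' i j' j := by
  unfold cell
  refine quad (r i) (r i') (r j) (r j') _ _ _ _ (G.Adj i j) (G.Adj i j') (G.Adj i' j) (G.Adj i' j')
    (hz i j) (hz i j') (hz i' j) (hz i' j') ?_ ?_ ?_ ?_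
  · intro h1 h2
    have h3 := ht i j j' h1 hj h2
    linarith
  · intro h1 h2
    have h3 := ht i' j j' h1 hj h2
    linarith
  · intro h1 h2
    have h3 := ht j i i' h1.symm hi h2.symm
    have h4 := hs i j
    have h5 := hs i' j
    linarith
  · intro h1 h2
    have h3 := ht j' i i' h1.symm hi h2.symm
    have h4 := hs i j'
    have h5 := hs i' j'
    linarith

/-- the number of vertices not adjacent to `i` -/
noncomputable def miss (i : V) : ℝ := ∑ j : V, if G.Adj i j then (0 : ℝ) else 1

theorem miss_eq (i : V) : miss G i = Fintype.card V - G.degree i := by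
  unfold miss
  have h1 : ∀ j : V, (if G.Adj i j then (0 : ℝ) else 1) = 1 - (if G.Adj i j then (1 : ℝ) else 0) := by
    intro j
    split_ifs <;> ring
  simp only [h1, sum_sub_distrib, sum_const, card_univ, nsmul_eq_mul, mul_one]
  congr 1
  rw [← G.card_neighborFinset_eq_degree i, sum_ite, sum_const_zero, add_zero, sum_const, nsmul_eq_mul,
    mul_one]
  congr 2
  ext j
  simp

theorem miss_symm (f : V → ℝ) :
    ∑ i : V, ∑ j : V, (if G.Adj i j then (0 : ℝ) else f j) = ∑ i : V, f i * miss G i := by
  rw [sum_comm]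
  refine sum_congr rfl fun j _ => ?_
  unfold miss
  rw [mul_sum]
  refine sum_congr rfl fun i _ => ?_
  by_cases h : G.Adj i j
  · rw [if_pos h, if_pos h.symm, mul_zero]
  · rw [if_neg h, if_neg fun h2 => h h2.symm, mul_one]

theorem miss_left (f : V → ℝ) :
    ∑ i : V, ∑ j : V, (if G.Adj i j then (0 : ℝ) else f i) = ∑ i : V, f i * miss G i := by
  refine sum_congr rfl fun i _ => ?_
  unfold miss
  rw [mul_sum]
  refine sum_congr rfl fun j _ => ?_
  split_ifs
  · rw [mul_zero]
  · rw [mul_one]

/-- the total over all quadruples of one cross pair -/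
theorem cell_sum (y : V → V → ℝ) (r : V → ℝ) (x : V → V → ℝ) (hx1 : ∀ i, ∑ j, x i j = 1) :
    ∑ i : V, ∑ i' : V, ∑ j : V, ∑ j' : V, x i i' * x j j' * cell G y r i i' j j' =
      (∑ i : V, ∑ j : V, if G.Adj i j then y i j + r i + r j else 0) +
      4 * ∑ i : V, (∑ i' : V, x i i' * beta (r i) (r i')) * miss G i := by
  have h1 : ∀ i j : V, ∑ i' : V, ∑ j' : V, x i i' * x j j' * cell G y r i i' j j' =
      (if G.Adj i j then y i j + r i + r j else 0) +
      (if G.Adj i j then (0 : ℝ) else 2 * ∑ i' : V, x i i' * beta (r i) (r i')) +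
      (if G.Adj i j then (0 : ℝ) else 2 * ∑ j' : V, x j j' * beta (r j) (r j')) := by
    intro i j
    unfold cell
    by_cases h : G.Adj i j
    · simp only [if_pos h]
      have h2 : ∀ i' : V, ∑ j' : V, x i i' * x j j' * (y i j + r i + r j) =
          x i i' * (y i j + r i + r j) := by
        intro i'
        have h3 : ∀ j' : V, x i i' * x j j' * (y i j + r i + r j) =
            x i i' * (y i j + r i + r j) * x j j' := fun j' => by ring
        rw [sum_congr rfl fun j' _ => h3 j', ← mul_sum, hx1, mul_one]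
      rw [sum_congr rfl fun i' _ => h2 i', ← sum_mul, hx1]
      ring
    · simp only [if_neg h]
      have h2 : ∀ i' : V, ∑ j' : V, x i i' * x j j' * (2 * (beta (r i) (r i') + beta (r j) (r j'))) =
          2 * (x i i' * beta (r i) (r i')) +
          x i i' * (2 * ∑ j' : V, x j j' * beta (r j) (r j')) := by
        intro i'
        have h3 : ∀ j' : V, x i i' * x j j' * (2 * (beta (r i) (r i') + beta (r j) (r j'))) =
            2 * (x i i' * beta (r i) (r i')) * x j j' +
            x i i' * (2 * (x j j' * beta (r j) (r j'))) := fun j' => by ring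
        rw [sum_congr rfl fun j' _ => h3 j', sum_add_distrib, ← mul_sum, hx1, mul_one, ← mul_sum,
          ← mul_sum]
      rw [sum_congr rfl fun i' _ => h2 i', sum_add_distrib, ← mul_sum, ← sum_mul, hx1]
      ring
  have h2 : ∑ i : V, ∑ i' : V, ∑ j : V, ∑ j' : V, x i i' * x j j' * cell G y r i i' j j' =
      ∑ i : V, ∑ j : V, ∑ i' : V, ∑ j' : V, x i i' * x j j' * cell G y r i i' j j' :=
    sum_congr rfl fun i _ => sum_comm
  rw [h2]
  simp only [h1, sum_add_distrib]
  rw [miss_left G fun i => 2 * ∑ i' : V, x i i' * beta (r i) (r i'),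
    miss_symm G fun i => 2 * ∑ i' : V, x i i' * beta (r i) (r i')]
  simp only [mul_assoc, ← mul_sum]
  ring

/-- **nonnegative energy**, from a fractional perfect matching and a complementary dual solution -/
theorem energy_nonneg (hdeg : ∀ i, 3 * Fintype.card V ≤ 4 * G.degree i)
    (y : V → V → ℝ) (r : V → ℝ) (x : V → V → ℝ) (hs : ∀ i j, y i j = y j i)
    (ht : ∀ i j k, G.Adj i j → G.Adj j k → G.Adj i k → 0 ≤ y i j + y j k + y i k)
    (hz : ∀ i j, G.Adj i j → 0 ≤ y i j + r i + r j)
    (hx0 : ∀ i j, 0 ≤ x i j) (hxs : ∀ i j, x i j = x j i) (hx1 : ∀ i, ∑ j, x i j = 1)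
    (hxa : ∀ i j, x i j ≠ 0 → G.Adj i j ∧ y i j + r i + r j = 0) :
    0 ≤ ∑ i : V, ∑ j : V, if G.Adj i j then y i j else 0 := by
  set n : ℝ := (Fintype.card V : ℝ) with hn
  set b : V → ℝ := fun i => ∑ i' : V, x i i' * beta (r i) (r i') with hb
  -- the inequality for every quadruple, multiplied by its weight
  have h1 : ∀ i i' j j' : V, x i i' * x j j' * (3 / 2 * (r i + r i' + r j + r j') +
      (beta (r i) (r i') + beta (r i') (r i) + beta (r j) (r j') + beta (r j') (r j))) ≤
      x i i' * x j j' * (cell G y r i i' j j' + cell G y r i i' j' j + cell G y r i' i j j' +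
        cell G y r i' i j' j) := by
    intro i i' j j'
    by_cases h2 : x i i' = 0
    · rw [h2]; simp
    by_cases h3 : x j j' = 0
    · rw [h3]; simp
    obtain ⟨h4, h5⟩ := hxa _ _ h2
    obtain ⟨h6, h7⟩ := hxa _ _ h3
    exact mul_le_mul_of_nonneg_left (quad_graph G y r hs ht hz i i' j j' h4 h6 h5 h7)
      (mul_nonneg (hx0 _ _) (hx0 _ _))
  have h2 : ∑ i : V, ∑ i' : V, ∑ j : V, ∑ j' : V, x i i' * x j j' *
      (3 / 2 * (r i + r i' + r j + r j') +
      (beta (r i) (r i') + beta (r i') (r i) + beta (r j) (r j') + beta (r j') (r j))) ≤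
      ∑ i : V, ∑ i' : V, ∑ j : V, ∑ j' : V, x i i' * x j j' * (cell G y r i i' j j' +
        cell G y r i i' j' j + cell G y r i' i j j' + cell G y r i' i j' j) :=
    sum_le_sum fun i _ => sum_le_sum fun i' _ => sum_le_sum fun j _ => sum_le_sum fun j' _ =>
      h1 i i' j j'
  -- the right side
  set S := ∑ i : V, ∑ i' : V, ∑ j : V, ∑ j' : V, x i i' * x j j' * cell G y r i i' j j' with hS
  have h3 : ∑ i : V, ∑ i' : V, ∑ j : V, ∑ j' : V, x i i' * x j j' * (cell G y r i i' j j' +
        cell G y r i i' j' j + cell G y r i' i j j' + cell G y r i' i j' j) = 4 * S := by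
    have e1 : ∑ i : V, ∑ i' : V, ∑ j : V, ∑ j' : V, x i i' * x j j' * cell G y r i i' j' j = S := by
      rw [hS]
      refine sum_congr rfl fun i _ => sum_congr rfl fun i' _ => ?_
      rw [sum_comm]
      refine sum_congr rfl fun j _ => sum_congr rfl fun j' _ => ?_
      rw [hxs j' j]
    have e2 : ∑ i : V, ∑ i' : V, ∑ j : V, ∑ j' : V, x i i' * x j j' * cell G y r i' i j j' = S := by
      rw [hS, sum_comm]
      refine sum_congr rfl fun i _ => sum_congr rfl fun i' _ => sum_congr rfl fun j _ =>
        sum_congr rfl fun j' _ => ?_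
      rw [hxs i' i]
    have e3 : ∑ i : V, ∑ i' : V, ∑ j : V, ∑ j' : V, x i i' * x j j' * cell G y r i' i j' j = S := by
      rw [← e1, sum_comm]
      refine sum_congr rfl fun i _ => sum_congr rfl fun i' _ => sum_congr rfl fun j _ =>
        sum_congr rfl fun j' _ => ?_
      rw [hxs i' i]
    simp only [mul_add, sum_add_distrib]
    rw [e1, e2, e3, ← hS]
    ring
  -- the left side
  have h4 : ∀ f : V → V → ℝ, ∑ i : V, ∑ i' : V, ∑ j : V, ∑ j' : V, x i i' * x j j' * f i i' =
      n * ∑ i : V, ∑ i' : V, x i i' * f i i' := by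
    intro f
    rw [mul_sum]
    refine sum_congr rfl fun i _ => ?_
    rw [mul_sum]
    refine sum_congr rfl fun i' _ => ?_
    have h5 : ∀ j : V, ∑ j' : V, x i i' * x j j' * f i i' = x i i' * f i i' := by
      intro j
      have h6 : ∀ j' : V, x i i' * x j j' * f i i' = x i i' * f i i' * x j j' := fun j' => by ring
      rw [sum_congr rfl fun j' _ => h6 j', ← mul_sum, hx1, mul_one]
    rw [sum_congr rfl fun j _ => h5 j, sum_const, card_univ, nsmul_eq_mul]
  have h4' : ∀ f : V → V → ℝ, ∑ i : V, ∑ i' : V, ∑ j : V, ∑ j' : V, x i i' * x j j' * f j j' =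
      n * ∑ i : V, ∑ i' : V, x i i' * f i i' := by
    intro f
    rw [← h4 f]
    have h5 : ∑ i : V, ∑ i' : V, ∑ j : V, ∑ j' : V, x i i' * x j j' * f j j' =
        ∑ i : V, ∑ j : V, ∑ j' : V, ∑ i' : V, x i i' * x j j' * f j j' := by
      refine sum_congr rfl fun i _ => ?_
      rw [sum_comm]
      refine sum_congr rfl fun j _ => ?_
      rw [sum_comm]
    rw [h5, sum_comm]
    refine sum_congr rfl fun j _ => ?_
    rw [sum_comm]
    refine sum_congr rfl fun j' _ => sum_congr rfl fun i _ => sum_congr rfl fun i' _ => ?_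
    ring
  have hr1 : ∑ i : V, ∑ i' : V, x i i' * r i = ∑ i, r i := by
    refine sum_congr rfl fun i _ => ?_
    rw [← sum_mul, hx1, one_mul]
  have hr2 : ∑ i : V, ∑ i' : V, x i i' * r i' = ∑ i, r i := by
    rw [sum_comm, ← hr1]
    refine sum_congr rfl fun i _ => sum_congr rfl fun i' _ => ?_
    rw [hxs]
  have hb1 : ∑ i : V, ∑ i' : V, x i i' * beta (r i) (r i') = ∑ i, b i := rfl
  have hb2 : ∑ i : V, ∑ i' : V, x i i' * beta (r i') (r i) = ∑ i, b i := by
    rw [sum_comm, ← hb1]
    refine sum_congr rfl fun i _ => sum_congr rfl fun i' _ => ?_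
    rw [hxs]
  have h5 : ∑ i : V, ∑ i' : V, ∑ j : V, ∑ j' : V, x i i' * x j j' *
      (3 / 2 * (r i + r i' + r j + r j') +
      (beta (r i) (r i') + beta (r i') (r i) + beta (r j) (r j') + beta (r j') (r j))) =
      6 * n * (∑ i, r i) + 4 * n * ∑ i, b i := by
    have e1 : ∀ i i' j j' : V, x i i' * x j j' * (3 / 2 * (r i + r i' + r j + r j') +
      (beta (r i) (r i') + beta (r i') (r i) + beta (r j) (r j') + beta (r j') (r j))) =
      x i i' * x j j' * (3 / 2 * r i + 3 / 2 * r i' + beta (r i) (r i') + beta (r i') (r i)) +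
      x i i' * x j j' * (3 / 2 * r j + 3 / 2 * r j' + beta (r j) (r j') + beta (r j') (r j)) :=
      fun i i' j j' => by ring
    simp only [e1, sum_add_distrib]
    rw [h4 fun i i' => 3 / 2 * r i + 3 / 2 * r i' + beta (r i) (r i') + beta (r i') (r i),
      h4' fun i i' => 3 / 2 * r i + 3 / 2 * r i' + beta (r i) (r i') + beta (r i') (r i)]
    have e2 : ∑ i : V, ∑ i' : V, x i i' * (3 / 2 * r i + 3 / 2 * r i' + beta (r i) (r i') +
        beta (r i') (r i)) = 3 * (∑ i, r i) + 2 * ∑ i, b i := by
      have e3 : ∀ i i' : V, x i i' * (3 / 2 * r i + 3 / 2 * r i' + beta (r i) (r i') +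
        beta (r i') (r i)) = 3 / 2 * (x i i' * r i) + 3 / 2 * (x i i' * r i') +
        x i i' * beta (r i) (r i') + x i i' * beta (r i') (r i) := fun i i' => by ring
      simp only [e3, sum_add_distrib, ← mul_sum]
      rw [hr1, hr2, hb1, hb2]
      ring
    rw [e2]
    ring
  rw [h3, h5, hS, cell_sum G y r x hx1] at h2
  -- the slacks in terms of the weights
  have h6 : (∑ i : V, ∑ j : V, if G.Adj i j then y i j + r i + r j else 0) =
      (∑ i : V, ∑ j : V, if G.Adj i j then y i j else 0) + 2 * ∑ i, r i * (n - miss G i) := by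
    have e1 : ∀ i j : V, (if G.Adj i j then y i j + r i + r j else 0) =
        (if G.Adj i j then y i j else 0) + (r i + r j) -
        (if G.Adj i j then (0 : ℝ) else r i) - (if G.Adj i j then (0 : ℝ) else r j) := by
      intro i j
      split_ifs <;> ring
    simp only [e1, sum_add_distrib, sum_sub_distrib]
    rw [miss_left G r, miss_symm G r]
    simp only [sum_const, card_univ, nsmul_eq_mul, mul_sub, sum_sub_distrib, ← sum_mul, ← mul_sum]
    rw [← hn]
    ring
  have h7 : ∀ i, r i ≤ 2 * b i := by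
    intro i
    have e1 : ∑ i' : V, x i i' * r i ≤ ∑ i' : V, x i i' * (2 * beta (r i) (r i')) :=
      sum_le_sum fun i' _ => mul_le_mul_of_nonneg_left (le_two_beta _ _) (hx0 _ _)
    rw [← sum_mul, hx1, one_mul] at e1
    have e2 : ∑ i' : V, x i i' * (2 * beta (r i) (r i')) = 2 * b i := by
      rw [hb, mul_sum]
      exact sum_congr rfl fun i' _ => by ring
    linarith
  have h8 : ∀ i, miss G i ≤ n / 4 := by
    intro i
    rw [miss_eq]
    have e1 : (3 * Fintype.card V : ℝ) ≤ 4 * G.degree i := by exact_mod_cast hdeg i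
    rw [← hn] at e1 ⊢
    linarith
  have h9 : ∑ i, (n / 4) * (r i - 2 * b i) ≤ ∑ i, miss G i * (r i - 2 * b i) :=
    sum_le_sum fun i _ => mul_le_mul_of_nonpos_right (h8 i) (by linarith [h7 i])
  have h10 : ∑ i, (n / 4) * (r i - 2 * b i) = n / 4 * (∑ i, r i) - n / 2 * ∑ i, b i := by
    rw [← mul_sum, sum_sub_distrib, ← mul_sum]
    ring
  have h11 : ∑ i, miss G i * (r i - 2 * b i) =
      (∑ i, r i * miss G i) - 2 * ∑ i, b i * miss G i := by
    rw [mul_sum, ← sum_sub_distrib]
    exact sum_congr rfl fun i _ => by ring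
  have h12 : ∑ i, r i * (n - miss G i) = n * (∑ i, r i) - ∑ i, r i * miss G i := by
    rw [mul_sum, ← sum_sub_distrib]
    exact sum_congr rfl fun i _ => by ring
  rw [h6, h12] at h2
  have h13 : ∑ i : V, (∑ i' : V, x i i' * beta (r i) (r i')) * miss G i = ∑ i, b i * miss G i := rfl
  rw [h13] at h2
  rw [h10, h11] at h9
  linarith

end FNW
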