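import Pool.Agent.Lib.MP_cb9986_co.FNW.Lower

/-!
# The fractional triangle decomposition threshold is 3/4

Every graph on `n` vertices of minimum degree at least `3n/4` has a fractional triangle decomposition, and
the fractional triangle decomposition threshold is `3/4`.
-/

set_option autoImplicit false

namespace FNW.Threshold

open Finset

open Classical in
/-- a fractional `K_3`-decomposition: weights in `[0, 1]` on the triangles (vertex sets of triangles) such
that for every edge `uv` the weights of the triangles that contain `u` and `v` sum to `1` -/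
def HasFractionalDecomposition {V : Type} [Fintype V] (G : SimpleGraph V) : Prop :=
  ∃ ω : Finset V → ℝ, (∀ T, G.IsNClique 3 T → 0 ≤ ω T ∧ ω T ≤ 1) ∧
    ∀ u v, G.Adj u v → ∑ T : Finset V with G.IsNClique 3 T ∧ u ∈ T ∧ v ∈ T, ω T = 1

/-- `K_3`-divisible: the number of edges is a multiple of `3` and every degree is even -/
def IsDivisible {V : Type} [Fintype V] (G : SimpleGraph V) : Prop :=
  3 ∣ G.edgeSet.ncard ∧ ∀ v, Even (G.neighborSet v).ncard

/-- the fractional `K_3`-decomposition threshold: the infimum of all `δ` in `[0, 1]` for which there is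
`n₀` such that every `K_3`-divisible graph with `n ≥ n₀` vertices and minimum degree at least `δ n` has a
fractional `K_3`-decomposition -/
noncomputable def threshold : ℝ :=
  sInf {δ : ℝ | 0 ≤ δ ∧ δ ≤ 1 ∧ ∃ n₀ : ℕ, ∀ (V : Type) [Fintype V] (G : SimpleGraph V),
    n₀ ≤ Fintype.card V → IsDivisible G →
    (∀ v, δ * Fintype.card V ≤ (G.neighborSet v).ncard) → HasFractionalDecomposition G}

theorem upper {V : Type} [Fintype V] (G : SimpleGraph V)
    (h : ∀ v, (3 / 4 : ℝ) * Fintype.card V ≤ (G.neighborSet v).ncard) :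
    HasFractionalDecomposition G := by
  classical
  have hdeg : ∀ v, (G.neighborSet v).ncard = G.degree v := by
    intro v
    rw [Set.ncard_eq_toFinset_card']
    rfl
  obtain ⟨ω, h1, h2⟩ := FNW.exists_decomposition G (fun v => by
    have h3 := h v
    rw [hdeg] at h3
    have h4 : (3 * Fintype.card V : ℝ) ≤ 4 * G.degree v := by linarith
    exact_mod_cast h4)
  refine ⟨ω, fun T hT => h1 T (by rwa [SimpleGraph.mem_cliqueFinset_iff]), fun u v huv => ?_⟩
  rw [← h2 u v huv]
  refine sum_congr ?_ fun _ _ => rfl
  ext T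
  simp only [mem_filter, mem_univ, true_and, SimpleGraph.mem_cliqueFinset_iff]

theorem low_degree (q : ℕ) (v : Bool × Bool × Fin q) :
    (((FNW.low q).neighborSet v).ncard : ℝ) = 3 * q - 1 := by
  classical
  have h1 := FNW.low_sum q v 1 1
  have h2 : ∑ w, (if (FNW.low q).Adj v w then (if v.1 = w.1 then (1 : ℝ) else 1) else 0) =
      ((FNW.low q).neighborSet v).ncard := by
    simp only [ite_self]
    rw [sum_boole, Set.ncard_eq_toFinset_card']
    congr 2
    ext w
    simp
  rw [← h2, h1]
  ring

theorem low_divisible (k : ℕ) : IsDivisible (FNW.low (6 * k + 3)) := by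
  classical
  set q := 6 * k + 3 with hq
  have h1 : ∀ v, ((FNW.low q).neighborSet v).ncard = 3 * q - 1 := by
    intro v
    have h2 := low_degree q v
    have h3 : (((FNW.low q).neighborSet v).ncard : ℝ) + 1 = 3 * q := by linarith
    have h4 : ((FNW.low q).neighborSet v).ncard + 1 = 3 * q := by exact_mod_cast h3
    omega
  constructor
  · have h2 := (FNW.low q).sum_degrees_eq_twice_card_edges
    have h3 : ∀ v, (FNW.low q).degree v = 3 * q - 1 := by
      intro v
      rw [← h1 v, Set.ncard_eq_toFinset_card']
      rfl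
    rw [sum_congr rfl fun v _ => h3 v, sum_const, card_univ] at h2
    simp only [Fintype.card_prod, Fintype.card_bool, Fintype.card_fin, smul_eq_mul] at h2
    have h4 : (FNW.low q).edgeSet.ncard = (FNW.low q).edgeFinset.card := by
      rw [Set.ncard_eq_toFinset_card']
      rfl
    rw [h4]
    have h5 : (FNW.low q).edgeFinset.card = 3 * ((4 * k + 2) * (3 * q - 1)) := by
      have h6 : 2 * (3 * ((4 * k + 2) * (3 * q - 1))) = 2 * (2 * q) * (3 * q - 1) := by
        rw [hq]
        ring
      have h7 : 2 * (2 * q) * (3 * q - 1) = 2 * (FNW.low q).edgeFinset.card := by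
        rw [← h2]
      omega
    exact ⟨_, h5⟩
  · intro v
    rw [h1 v]
    exact ⟨9 * k + 4, by omega⟩

theorem lower (δ : ℝ) (n₀ : ℕ) (h : ∀ (V : Type) [Fintype V] (G : SimpleGraph V),
    n₀ ≤ Fintype.card V → IsDivisible G →
    (∀ v, δ * Fintype.card V ≤ (G.neighborSet v).ncard) → HasFractionalDecomposition G) :
    3 / 4 ≤ δ := by
  by_contra hδ
  push Not at hδ
  obtain ⟨k, hk⟩ := exists_nat_gt (1 / (3 - 4 * δ))
  set m := max k n₀ with hm
  have h1 : 0 < 3 - 4 * δ := by linarith
  have h2 : 1 ≤ (3 - 4 * δ) * (6 * m + 3 : ℕ) := by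
    have h3 : (k : ℝ) ≤ (6 * m + 3 : ℕ) := by
      have h4 : k ≤ 6 * m + 3 := (le_max_left k n₀).trans (by omega)
      exact_mod_cast h4
    have h5 : 1 / (3 - 4 * δ) ≤ (6 * m + 3 : ℕ) := hk.le.trans h3
    rw [div_le_iff₀ h1] at h5
    linarith
  obtain ⟨ω, -, h3⟩ := h (Bool × Bool × Fin (6 * m + 3)) (FNW.low (6 * m + 3)) (by
    simp only [Fintype.card_prod, Fintype.card_bool, Fintype.card_fin]
    have := le_max_right k n₀
    omega) (low_divisible m) (by
    intro v
    rw [low_degree]
    simp only [Fintype.card_prod, Fintype.card_bool, Fintype.card_fin]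
    push_cast at h2 ⊢
    linarith)
  exact FNW.low_none (6 * m + 3) (by omega) ω fun u v huv => by
    rw [← h3 u v huv]
    refine sum_congr ?_ fun _ _ => rfl
    ext T
    simp only [mem_filter, mem_univ, true_and]

/-- **the fractional triangle decomposition threshold is `3/4`**, and minimum degree `3n/4` always
suffices -/
theorem result :
    (∀ (V : Type) [Fintype V] (G : SimpleGraph V),
      (∀ v, (3 / 4 : ℝ) * Fintype.card V ≤ (G.neighborSet v).ncard) →
        HasFractionalDecomposition G) ∧
    threshold = 3 / 4 := by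
  refine ⟨fun V _ G h => upper G h, ?_⟩
  unfold threshold
  apply le_antisymm
  · refine csInf_le ⟨0, fun δ h => h.1⟩ ⟨by norm_num, by norm_num, 0, fun V _ G _ _ h => upper G h⟩
  · refine le_csInf ⟨3 / 4, by norm_num, by norm_num, 0, fun V _ G _ _ h => upper G h⟩ ?_
    rintro δ ⟨-, -, n₀, h⟩
    exact lower δ n₀ h

end FNW.Threshold
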